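import Mathlib

/-!
# Values on a grid which are locally given by edges of a graph

A point of the grid `[q] ^ k` carries a value, a pair of natural numbers. For a clique
`v 0, …, v (k - 1)` of a graph the value at `a` would be the sum of `a l` times the code of
`v l` in class `l`. Two values at points which differ in at most two coordinates `i`, `j` are
compatible if their difference is what it should be for some edge of the graph. We show that if
more than `k * q ^ (k - 1)` points carry pairwise compatible values, then the graph has a clique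
with `k` vertices.
-/

namespace Pool.Agent.H438R3.VB

open Finset

/-- The number of the vertex `u` in class `i`. -/
def vid (N i u : ℕ) : ℕ := i * N + u

/-- Compatibility of the values `x`, `y` at the points `a`, `b`. -/
def Cmp (N k : ℕ) (adj : ℕ → ℕ → Prop) (a b : ℕ → ℕ) (x y : ℕ × ℕ) : Prop :=
  ∀ i j, i < j → j < k → (∀ l < k, l ≠ i → l ≠ j → a l = b l) →
    ∃ u < N, ∃ v < N, adj u v ∧
      x.1 + b i * vid N i u + b j * vid N j v = y.1 + a i * vid N i u + a j * vid N j v ∧
      x.2 + b i * vid N i u ^ 2 + b j * vid N j v ^ 2 =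
        y.2 + a i * vid N i u ^ 2 + a j * vid N j v ^ 2

theorem sum_swap {k i j : ℕ} (w a b : ℕ → ℕ) (hij : i < j) (hj : j < k)
    (h : ∀ l < k, l ≠ i → l ≠ j → a l = b l) :
    ∑ l ∈ range k, a l * w l + b i * w i + b j * w j =
      ∑ l ∈ range k, b l * w l + a i * w i + a j * w j := by
  have hi' : i ∈ range k := by simp; omega
  have hj' : j ∈ (range k).erase i := by simp; omega
  rw [← Finset.add_sum_erase _ _ hi', ← Finset.add_sum_erase _ _ hj',
    ← Finset.add_sum_erase (range k) (fun l => b l * w l) hi',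
    ← Finset.add_sum_erase ((range k).erase i) (fun l => b l * w l) hj']
  have : ∑ l ∈ ((range k).erase i).erase j, a l * w l =
      ∑ l ∈ ((range k).erase i).erase j, b l * w l := by
    refine Finset.sum_congr rfl fun l hl => ?_
    simp only [mem_erase, mem_range, ne_eq] at hl
    rw [h l hl.2.2 hl.2.1 hl.1]
  rw [this]
  ring

/-- The values given by a sequence of vertices. -/
def Fv (N k : ℕ) (v a : ℕ → ℕ) : ℕ × ℕ :=
  (∑ l ∈ range k, a l * vid N l (v l), ∑ l ∈ range k, a l * vid N l (v l) ^ 2)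

theorem cmp_Fv {N k : ℕ} {adj : ℕ → ℕ → Prop} {v : ℕ → ℕ} (hv : ∀ i < k, v i < N)
    (hadj : ∀ i < k, ∀ j < k, i ≠ j → adj (v i) (v j)) (a b : ℕ → ℕ) :
    Cmp N k adj a b (Fv N k v a) (Fv N k v b) := by
  intro i j hij hj h
  refine ⟨v i, hv i (by omega), v j, hv j hj, hadj i (by omega) j hj (by omega), ?_, ?_⟩
  · exact sum_swap (fun l => vid N l (v l)) a b hij hj h
  · exact sum_swap (fun l => vid N l (v l) ^ 2) a b hij hj h

theorem sidon {N i j u u' v v' : ℕ} (hij : i < j) (hu : u < N) (hu' : u' < N) {p r : ℤ}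
    (hp : p ≠ 0) (hr : r ≠ 0)
    (h1 : p * ((vid N i u : ℤ) - vid N i u') + r * ((vid N j v : ℤ) - vid N j v') = 0)
    (h2 : p * ((vid N i u : ℤ) ^ 2 - (vid N i u' : ℤ) ^ 2) +
      r * ((vid N j v : ℤ) ^ 2 - (vid N j v' : ℤ) ^ 2) = 0) : u = u' ∧ v = v' := by
  have key : vid N i u = vid N i u' := by
    by_contra hne
    have hne' : (vid N i u : ℤ) - vid N i u' ≠ 0 := by
      intro h
      apply hne
      omega
    have h3 : p * ((vid N i u : ℤ) - vid N i u') *
        (((vid N i u : ℤ) + vid N i u') - ((vid N j v : ℤ) + vid N j v')) = 0 := by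
      have e1 : r * ((vid N j v : ℤ) - vid N j v') = -(p * ((vid N i u : ℤ) - vid N i u')) := by
        linarith
      have e2 : r * ((vid N j v : ℤ) ^ 2 - (vid N j v' : ℤ) ^ 2) =
          r * ((vid N j v : ℤ) - vid N j v') * ((vid N j v : ℤ) + vid N j v') := by ring
      have e3 : p * ((vid N i u : ℤ) ^ 2 - (vid N i u' : ℤ) ^ 2) =
          p * ((vid N i u : ℤ) - vid N i u') * ((vid N i u : ℤ) + vid N i u') := by ring
      rw [e2, e1, e3] at h2
      linarith
    have h4 : ((vid N i u : ℤ) + vid N i u') - ((vid N j v : ℤ) + vid N j v') = 0 := by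
      rcases mul_eq_zero.1 h3 with h | h
      · exact absurd h (mul_ne_zero hp hne')
      · exact h
    have h5 : vid N i u + vid N i u' = vid N j v + vid N j v' := by
      omega
    have h6 : (i + 1) * N ≤ j * N := Nat.mul_le_mul_right _ hij
    unfold vid at h5
    have h7 : (i + 1) * N = i * N + N := by ring
    omega
  have h3 : r * ((vid N j v : ℤ) - vid N j v') = 0 := by
    rw [key] at h1
    simpa using h1
  have h4 : (vid N j v : ℤ) - vid N j v' = 0 := by
    rcases mul_eq_zero.1 h3 with h | h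
    · exact absurd h hr
    · exact h
  unfold vid at key h4
  constructor
  · omega
  · omega

/-- Coordinates of a point of the grid. -/
def ex {k q : ℕ} (a : Fin k → Fin q) (l : ℕ) : ℕ := if h : l < k then a ⟨l, h⟩ else 0

theorem ex_of_lt {k q : ℕ} (a : Fin k → Fin q) {l : ℕ} (h : l < k) : ex a l = a ⟨l, h⟩ := by
  simp [ex, h]

/-- A point with neighbours in all directions gives a clique. -/
theorem clique_of_point {N k q : ℕ} {adj : ℕ → ℕ → Prop} (hk : 2 ≤ k)
    (A : Finset (Fin k → Fin q)) (f : (Fin k → Fin q) → ℕ × ℕ)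
    (hA : ∀ a ∈ A, ∀ b ∈ A, Cmp N k adj (ex a) (ex b) (f a) (f b))
    (a : Fin k → Fin q) (ha : a ∈ A)
    (hn : ∀ i : Fin k, ∃ b ∈ A, b i ≠ a i ∧ ∀ l, l ≠ i → b l = a l) :
    ∃ v : Fin k → ℕ, (∀ i, v i < N) ∧ ∀ i j, i < j → adj (v i) (v j) := by
  choose b hbA hbi hbl using hn
  have hex : ∀ (i : Fin k) (l : ℕ), l < k → l ≠ i → ex (b i) l = ex a l := by
    intro i l hl hli
    rw [ex_of_lt _ hl, ex_of_lt _ hl, hbl i ⟨l, hl⟩ (by intro h; apply hli; rw [← h])]
  have hexi : ∀ (i : Fin k), ((ex (b i) i : ℕ) : ℤ) - (ex a i : ℕ) ≠ 0 := by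
    intro i h
    apply hbi i
    rw [ex_of_lt _ i.2, ex_of_lt _ i.2] at h
    apply Fin.ext
    have : ((b i i : ℕ) : ℤ) - (a i : ℕ) = 0 := h
    omega
  -- the vertices
  have h1 : ∀ i : Fin k, ∃ u < N,
      ((f a).1 : ℤ) - (f (b i)).1 = ((ex a i : ℤ) - ex (b i) i) * vid N i u ∧
      ((f a).2 : ℤ) - (f (b i)).2 = ((ex a i : ℤ) - ex (b i) i) * (vid N i u : ℤ) ^ 2 := by
    intro i
    obtain ⟨j, hj⟩ : ∃ j : Fin k, j ≠ i := by
      by_cases h0 : i.1 = 0
      · exact ⟨⟨1, by omega⟩, by intro h; have := congrArg Fin.val h; simp only at this; omega⟩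
      · exact ⟨⟨0, by omega⟩, by intro h; have := congrArg Fin.val h; simp only at this; omega⟩
    have hjv : j.1 ≠ i.1 := fun h => hj (Fin.ext h)
    have hag : ∀ l < k, l ≠ i.1 → ex a l = ex (b i) l := fun l hl hli => (hex i l hl hli).symm
    rcases lt_or_gt_of_ne hjv with hlt | hlt
    · obtain ⟨v, hv, u, hu, -, e1, e2⟩ := hA a ha (b i) (hbA i) j i hlt i.2
        (fun l hl _ hli => hag l hl hli)
      have e3 := hex i j j.2 hjv
      rw [e3] at e1 e2
      refine ⟨u, hu, ?_, ?_⟩
      · have : ((f a).1 : ℤ) + ex a j * vid N j v + ex (b i) i * vid N i u =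
            (f (b i)).1 + ex a j * vid N j v + ex a i * vid N i u := by exact_mod_cast e1
        linarith
      · have : ((f a).2 : ℤ) + ex a j * (vid N j v : ℤ) ^ 2 + ex (b i) i * (vid N i u : ℤ) ^ 2 =
            (f (b i)).2 + ex a j * (vid N j v : ℤ) ^ 2 + ex a i * (vid N i u : ℤ) ^ 2 := by
          exact_mod_cast e2
        linarith
    · obtain ⟨u, hu, v, hv, -, e1, e2⟩ := hA a ha (b i) (hbA i) i j hlt j.2
        (fun l hl hli _ => hag l hl hli)
      have e3 := hex i j j.2 hjv
      rw [e3] at e1 e2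
      refine ⟨u, hu, ?_, ?_⟩
      · have : ((f a).1 : ℤ) + ex (b i) i * vid N i u + ex a j * vid N j v =
            (f (b i)).1 + ex a i * vid N i u + ex a j * vid N j v := by exact_mod_cast e1
        linarith
      · have : ((f a).2 : ℤ) + ex (b i) i * (vid N i u : ℤ) ^ 2 + ex a j * (vid N j v : ℤ) ^ 2 =
            (f (b i)).2 + ex a i * (vid N i u : ℤ) ^ 2 + ex a j * (vid N j v : ℤ) ^ 2 := by
          exact_mod_cast e2
        linarith
  choose w hwN hw1 hw2 using h1
  refine ⟨w, hwN, ?_⟩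
  intro i j hij
  have hijv : i.1 < j.1 := hij
  obtain ⟨u, hu, v, hv, hadj, e1, e2⟩ := hA (b i) (hbA i) (b j) (hbA j) i j hijv j.2 (by
    intro l hl hli hlj
    rw [hex i l hl hli, hex j l hl hlj])
  have e3 := hex i j j.2 (by omega)
  have e4 := hex j i i.2 (by omega)
  rw [e3, e4] at e1 e2
  have f1 : ((f (b i)).1 : ℤ) + ex a i * vid N i u + ex (b j) j * vid N j v =
      (f (b j)).1 + ex (b i) i * vid N i u + ex a j * vid N j v := by exact_mod_cast e1
  have f2 : ((f (b i)).2 : ℤ) + ex a i * (vid N i u : ℤ) ^ 2 + ex (b j) j * (vid N j v : ℤ) ^ 2 =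
      (f (b j)).2 + ex (b i) i * (vid N i u : ℤ) ^ 2 + ex a j * (vid N j v : ℤ) ^ 2 := by
    exact_mod_cast e2
  obtain ⟨g1, g2⟩ := sidon (v := v) (v' := w j) (p := (ex (b i) i : ℤ) - ex a i)
    (r := (ex a j : ℤ) - ex (b j) j) hijv hu (hwN i) (hexi i)
    (by have := hexi j; intro h; apply this; linarith)
    (by
      have g3 := hw1 i
      have g4 := hw1 j
      linear_combination g4 - g3 - f1)
    (by
      have g3 := hw2 i
      have g4 := hw2 j
      linear_combination g4 - g3 - f2)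
  rw [← g1, ← g2]
  exact hadj

/-- If no point of `A` has neighbours in all directions then `A` is small. -/
theorem card_le_of_lonely {k q : ℕ} (A : Finset (Fin k → Fin q))
    (h : ∀ a ∈ A, ∃ i : Fin k, ∀ b ∈ A, (∀ l, l ≠ i → b l = a l) → b i = a i) :
    A.card ≤ k * q ^ (k - 1) := by
  classical
  have h1 : A ⊆ Finset.univ.biUnion (fun i : Fin k =>
      A.filter (fun a => ∀ b ∈ A, (∀ l, l ≠ i → b l = a l) → b i = a i)) := by
    intro a ha
    obtain ⟨i, hi⟩ := h a ha
    rw [mem_biUnion]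
    exact ⟨i, mem_univ _, mem_filter.2 ⟨ha, hi⟩⟩
  refine (Finset.card_le_card h1).trans (Finset.card_biUnion_le.trans ?_)
  have h2 : ∀ i : Fin k, (A.filter (fun a => ∀ b ∈ A, (∀ l, l ≠ i → b l = a l) →
      b i = a i)).card ≤ q ^ (k - 1) := by
    intro i
    have h3 : Fintype.card ({l : Fin k // l ≠ i} → Fin q) = q ^ (k - 1) := by
      rw [Fintype.card_fun, Fintype.card_fin]
      congr 1
      rw [Fintype.card_subtype_compl, Fintype.card_fin]
      simp
    rw [← h3, ← Finset.card_univ]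
    refine Finset.card_le_card_of_injOn (fun a l => a l.1) (fun _ _ => mem_coe.2 (mem_univ _)) ?_
    intro a ha b hb hab
    have ha' := (mem_filter.1 (mem_coe.1 ha))
    have hb' := (mem_filter.1 (mem_coe.1 hb))
    have e1 : ∀ l, l ≠ i → b l = a l := fun l hl => (congrFun hab ⟨l, hl⟩).symm
    have e2 := ha'.2 b hb'.1 e1
    funext l
    by_cases hl : l = i
    · rw [hl]; exact e2.symm
    · exact (e1 l hl).symm
  calc ∑ i : Fin k, _ ≤ ∑ i : Fin k, q ^ (k - 1) := Finset.sum_le_sum fun i _ => h2 i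
    _ = k * q ^ (k - 1) := by simp

/-- **Main combinatorial fact.** -/
theorem clique_of_card {N k q : ℕ} {adj : ℕ → ℕ → Prop} (hk : 2 ≤ k)
    (A : Finset (Fin k → Fin q)) (f : (Fin k → Fin q) → ℕ × ℕ)
    (hA : ∀ a ∈ A, ∀ b ∈ A, Cmp N k adj (ex a) (ex b) (f a) (f b))
    (hcard : k * q ^ (k - 1) < A.card) :
    ∃ v : Fin k → ℕ, (∀ i, v i < N) ∧ ∀ i j, i < j → adj (v i) (v j) := by
  by_contra hcon
  have : A.card ≤ k * q ^ (k - 1) := by
    refine card_le_of_lonely A fun a ha => ?_
    by_contra h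
    push Not at h
    refine hcon (clique_of_point hk A f hA a ha fun i => ?_)
    obtain ⟨b, hb, h1, h2⟩ := h i
    exact ⟨b, hb, h2, h1⟩
  omega

end Pool.Agent.H438R3.VB
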