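import Pool.Agent.H633R2.FptDefs

/-!
# Vertex Bisection: approximation algorithms with fpt running time
-/

namespace Pool.Agent.H438R3.VB

open Finset Pool.Agent.NPC Pool.Agent.H633R2

/-- `S` is a vertex bisector of `G`: the other vertices can be split into two sets whose sizes
differ by at most one, without edges of `G` between them. -/
def IsBisector {V : Type} [Fintype V] [DecidableEq V] (G : SimpleGraph V) (S : Finset V) : Prop :=
  ∃ V₁ V₂ : Finset V, Disjoint S V₁ ∧ Disjoint S V₂ ∧ Disjoint V₁ V₂ ∧ S ∪ V₁ ∪ V₂ = univ ∧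
    V₁.card ≤ V₂.card + 1 ∧ V₂.card ≤ V₁.card + 1 ∧ ∀ u ∈ V₁, ∀ v ∈ V₂, ¬ G.Adj u v

/-- What an approximation algorithm for Vertex Bisection answers on the instance `(G, k)`:
either `none`, and then `G` has no vertex bisector with at most `k` vertices, or (the list of the
vertices of) a vertex bisector of `G` whose size `s` satisfies `ok k s`. -/
def Correct (ok : ℕ → ℕ → Prop) (x : List (List Bool) × ℕ) (o : Option (List ℕ)) : Prop :=
  (o = none → ∀ S : Finset (Fin x.1.length), IsBisector (graphOf x.1) S → x.2 < S.card) ∧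
  ∀ l, o = some l → ∃ S : Finset (Fin x.1.length),
    (∀ i, i ∈ S ↔ (i : ℕ) ∈ l) ∧ IsBisector (graphOf x.1) S ∧ ok x.2 S.card

/-- Vertex Bisection has an fpt approximation algorithm with ratio `ρ`. -/
def FptApprox (ρ : ℝ) : Prop :=
  ∃ A : List (List Bool) × ℕ → Option (List ℕ),
    FptTime (fun x : List (List Bool) × ℕ => x.2) A ∧
    ∀ x, Correct (fun k s => (s : ℝ) ≤ ρ * k) x (A x)

/-- Vertex Bisection has an FPT-approximation scheme: the input is `((G, k), (p, q))`, where `p`
and `q` are positive, the error is `ε = p / q`, and the parameter is the code of `(k, p, q)`. -/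
def FptScheme : Prop :=
  ∃ A : (List (List Bool) × ℕ) × (ℕ × ℕ) → Option (List ℕ),
    FptTime (fun y : (List (List Bool) × ℕ) × (ℕ × ℕ) =>
      Nat.pair y.1.2 (Nat.pair y.2.1 y.2.2)) A ∧
    ∀ (x : List (List Bool) × ℕ) (p q : ℕ), 0 < p → 0 < q →
      Correct (fun k s => (s : ℝ) ≤ (1 + (p : ℝ) / q) * k) x (A (x, (p, q)))

end Pool.Agent.H438R3.VB
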