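import Mathlib

/-!
# The graph: descriptors of vertices, and the two directions of the reduction
-/

namespace Pool.Agent.H438R3.VB

open Finset

/-- Digits of a sum of powers. -/
theorem digits_one {B : ℕ} (hB : 2 ≤ B) {m : ℕ} (c : ℕ → ℕ) (hc : ∀ i < m, c i < B)
    (h : ∑ i ∈ range m, c i * B ^ i = ∑ i ∈ range m, B ^ i) : ∀ i < m, c i = 1 := by
  induction m generalizing c with
  | zero => intro i hi; omega
  | succ m ih =>
    rw [Finset.sum_range_succ', Finset.sum_range_succ'] at h
    have h1 : ∑ i ∈ range m, c (i + 1) * B ^ (i + 1) =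
        (∑ i ∈ range m, c (i + 1) * B ^ i) * B := by
      rw [Finset.sum_mul]
      refine Finset.sum_congr rfl fun i _ => by ring
    have h2 : ∑ i ∈ range m, B ^ (i + 1) = (∑ i ∈ range m, B ^ i) * B := by
      rw [Finset.sum_mul]
      refine Finset.sum_congr rfl fun i _ => by ring
    rw [h1, h2] at h
    simp only [pow_zero, mul_one] at h
    have h3 : c 0 = 1 := by
      have h4 : ((∑ i ∈ range m, c (i + 1) * B ^ i) * B + c 0) % B =
          ((∑ i ∈ range m, B ^ i) * B + 1) % B := by rw [h]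
      rw [Nat.mul_add_mod', Nat.mul_add_mod', Nat.mod_eq_of_lt (hc 0 (by omega)),
        Nat.mod_eq_of_lt (by omega : 1 < B)] at h4
      exact h4
    rw [h3] at h
    have h5 : ∑ i ∈ range m, c (i + 1) * B ^ i = ∑ i ∈ range m, B ^ i :=
      Nat.eq_of_mul_eq_mul_right (by omega : 0 < B) (Nat.add_right_cancel h)
    have h6 := ih (fun i => c (i + 1)) (fun i hi => hc (i + 1) (by omega)) h5
    intro i hi
    cases i with
    | zero => exact h3
    | succ i => exact h6 i (by omega)

/-- A node: a group and a value. -/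
abbrev Nd : Type := ℕ × ℕ × ℕ

/-- Descriptors of vertices: `(0, _, _, r)` core, `(1, z, _, _)` node, `(2, z, z', r)` vertex
of the blob of the nodes `z`, `z'`, and `(3, _, _, r)` vertex of the isolated clique. -/
abbrev Ds : Type := ℕ × Nd × Nd × ℕ

def z0 : Nd := (0, 0, 0)
def co (r : ℕ) : Ds := (0, z0, z0, r)
def nd (z : Nd) : Ds := (1, z, z0, 0)
def bl (z z' : Nd) (r : ℕ) : Ds := (2, z, z', r)
def dd (r : ℕ) : Ds := (3, z0, z0, r)

/-- Adjacency (not yet symmetric). -/
def adjD (u v : Ds) : Bool :=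
  (decide (u.1 = 0) && decide (v.1 ≤ 1)) || ((decide (u.1 = 3) && decide (v.1 = 3)) ||
  ((decide (u.1 = 2) && (decide (v.1 = 2) && (decide (u.2.1 = v.2.1) &&
    decide (u.2.2.1 = v.2.2.1)))) ||
  (decide (u.1 = 1) && (decide (v.1 = 2) && (decide (u.2.1 = v.2.1) ||
    decide (u.2.1 = v.2.2.1))))))

/-- The size of a blob. -/
def bsz (K W B : ℕ) (z z' : Nd) : ℕ := W * B ^ (z.1 * K + z'.1)

/-- The vertices except those of the isolated clique. -/
def L0 (K W B Γ : ℕ) (zl : List Nd) (C : Nd → Nd → Bool) : List Ds :=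
  (List.range Γ).map co ++ (zl.map nd ++
    zl.flatMap fun z => zl.flatMap fun z' =>
      bif C z z' then (List.range (bsz K W B z z')).map (bl z z') else [])

/-- The target. -/
def TT (K W B : ℕ) : ℕ := W * ∑ i ∈ range (K * K), B ^ i

/-- The size of the isolated clique. -/
def dsz (K W B Γ : ℕ) (zl : List Nd) (C : Nd → Nd → Bool) : ℕ :=
  (L0 K W B Γ zl C).length - (K + 2 * TT K W B)

/-- All vertices. -/
def LL (K W B Γ : ℕ) (zl : List Nd) (C : Nd → Nd → Bool) : List Ds :=
  L0 K W B Γ zl C ++ (List.range (dsz K W B Γ zl C)).map dd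

section

variable {K W B Γ : ℕ} {zl : List Nd} {C : Nd → Nd → Bool}

theorem mem_L0 {u : Ds} : u ∈ L0 K W B Γ zl C ↔ (∃ r < Γ, u = co r) ∨ (∃ z ∈ zl, u = nd z) ∨
    (∃ z ∈ zl, ∃ z' ∈ zl, C z z' = true ∧ ∃ r < bsz K W B z z', u = bl z z' r) := by
  unfold L0
  simp only [List.mem_append, List.mem_map, List.mem_range, List.mem_flatMap]
  constructor
  · rintro (⟨r, hr, rfl⟩ | ⟨z, hz, rfl⟩ | ⟨z, hz, z', hz', h⟩)
    · exact Or.inl ⟨r, hr, rfl⟩
    · exact Or.inr (Or.inl ⟨z, hz, rfl⟩)
    · cases hC : C z z' with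
      | false => rw [hC] at h; simp at h
      | true =>
        rw [hC] at h
        simp only [cond_true, List.mem_map, List.mem_range] at h
        obtain ⟨r, hr, rfl⟩ := h
        exact Or.inr (Or.inr ⟨z, hz, z', hz', hC, r, hr, rfl⟩)
  · rintro (⟨r, hr, rfl⟩ | ⟨z, hz, rfl⟩ | ⟨z, hz, z', hz', hC, r, hr, rfl⟩)
    · exact Or.inl ⟨r, hr, rfl⟩
    · exact Or.inr (Or.inl ⟨z, hz, rfl⟩)
    · refine Or.inr (Or.inr ⟨z, hz, z', hz', ?_⟩)
      rw [hC]
      simp only [cond_true, List.mem_map, List.mem_range]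
      exact ⟨r, hr, rfl⟩

theorem mem_LL {u : Ds} : u ∈ LL K W B Γ zl C ↔ (∃ r < Γ, u = co r) ∨ (∃ z ∈ zl, u = nd z) ∨
    (∃ z ∈ zl, ∃ z' ∈ zl, C z z' = true ∧ ∃ r < bsz K W B z z', u = bl z z' r) ∨
    (∃ r < dsz K W B Γ zl C, u = dd r) := by
  unfold LL
  rw [List.mem_append, mem_L0]
  simp only [List.mem_map, List.mem_range]
  constructor
  · rintro ((h | h | h) | ⟨r, hr, rfl⟩)
    · exact Or.inl h
    · exact Or.inr (Or.inl h)
    · exact Or.inr (Or.inr (Or.inl h))
    · exact Or.inr (Or.inr (Or.inr ⟨r, hr, rfl⟩))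
  · rintro (h | h | h | ⟨r, hr, rfl⟩)
    · exact Or.inl (Or.inl h)
    · exact Or.inl (Or.inr (Or.inl h))
    · exact Or.inl (Or.inr (Or.inr h))
    · exact Or.inr ⟨r, hr, rfl⟩

theorem co_inj : Function.Injective co := fun a b h => by simpa [co] using h
theorem nd_inj : Function.Injective nd := fun a b h => by simpa [nd] using h
theorem dd_inj : Function.Injective dd := fun a b h => by simpa [dd] using h
theorem bl_inj (z z' : Nd) : Function.Injective (bl z z') := fun a b h => by simpa [bl] using h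

theorem nodup_L0 (hz : zl.Nodup) : (L0 K W B Γ zl C).Nodup := by
  unfold L0
  rw [List.nodup_append', List.nodup_append']
  refine ⟨List.Nodup.map co_inj (List.nodup_range), ⟨List.Nodup.map nd_inj hz, ?_, ?_⟩, ?_⟩
  · rw [List.nodup_flatMap]
    refine ⟨fun z _ => ?_, ?_⟩
    · rw [List.nodup_flatMap]
      refine ⟨fun z' _ => ?_, ?_⟩
      · cases C z z'
        · simp
        · exact List.Nodup.map (bl_inj z z') List.nodup_range
      · refine hz.imp ?_
        intro a b hab
        simp only [Function.onFun]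
        rw [List.disjoint_left]
        intro u hu hu'
        cases h1 : C z a <;> cases h2 : C z b <;>
          simp [h1, h2, List.mem_map, bl] at hu hu'
        obtain ⟨r, -, rfl⟩ := hu
        obtain ⟨r', -, h3⟩ := hu'
        simp only [Prod.mk.injEq] at h3
        exact hab (h3.2.2.1).symm
    · refine hz.imp ?_
      intro a b hab
      simp only [Function.onFun]
      rw [List.disjoint_left]
      intro u hu hu'
      rw [List.mem_flatMap] at hu hu'
      obtain ⟨c, -, hu⟩ := hu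
      obtain ⟨c', -, hu'⟩ := hu'
      cases h1 : C a c <;> cases h2 : C b c' <;>
          simp [h1, h2, List.mem_map, bl] at hu hu'
      obtain ⟨r, -, rfl⟩ := hu
      obtain ⟨r', -, h3⟩ := hu'
      simp only [Prod.mk.injEq] at h3
      exact hab (h3.2.1).symm
  · rw [List.disjoint_left]
    intro u hu hu'
    rw [List.mem_map] at hu
    obtain ⟨z, -, rfl⟩ := hu
    rw [List.mem_flatMap] at hu'
    obtain ⟨a, -, hu'⟩ := hu'
    rw [List.mem_flatMap] at hu'
    obtain ⟨b, -, hu'⟩ := hu'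
    cases h1 : C a b <;> simp [h1, List.mem_map, bl, nd] at hu'
  · rw [List.disjoint_left]
    intro u hu hu'
    rw [List.mem_map] at hu
    obtain ⟨r, -, rfl⟩ := hu
    rw [List.mem_append] at hu'
    rcases hu' with hu' | hu'
    · rw [List.mem_map] at hu'
      obtain ⟨z, -, h⟩ := hu'
      simp [nd, co] at h
    · rw [List.mem_flatMap] at hu'
      obtain ⟨a, -, hu'⟩ := hu'
      rw [List.mem_flatMap] at hu'
      obtain ⟨b, -, hu'⟩ := hu'
      cases h1 : C a b <;> simp [h1, List.mem_map, bl, co] at hu'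

theorem nodup_LL (hz : zl.Nodup) : (LL K W B Γ zl C).Nodup := by
  unfold LL
  rw [List.nodup_append']
  refine ⟨nodup_L0 hz, List.Nodup.map dd_inj List.nodup_range, ?_⟩
  rw [List.disjoint_left]
  intro u hu hu'
  rw [List.mem_map] at hu'
  obtain ⟨r, -, rfl⟩ := hu'
  rw [mem_L0] at hu
  rcases hu with ⟨r', -, h⟩ | ⟨z, -, h⟩ | ⟨z, -, z', -, -, r', -, h⟩
  · simp [dd, co] at h
  · simp [dd, nd] at h
  · simp [dd, bl] at h

end

end Pool.Agent.H438R3.VB
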