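import Pool.Agent.H438R3.VB.Poly

/-!
# From approximation algorithms for Vertex Bisection to clique
-/

namespace Pool.Agent.H438R3.VB

open Pool.Agent.NPC
open Pool.Agent.H633R2 hiding TT Ds dg

theorem FptScheme.approx (h : FptScheme) : FptApprox (3 / 2) := by
  obtain ⟨A, hA, hc⟩ := h
  refine ⟨fun x => A (x, (1, 2)), ?_, ?_⟩
  · refine FptTime.comp hA
      (FptTime.of_poly (NPC.Poly.pair NPC.Poly.id (NPC.Poly.const ((1, 2) : ℕ × ℕ))))
      (G := fun k => Nat.pair k (Nat.pair 1 2)) ?_ (fun a => le_rfl)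
    exact (Primrec₂.natPair.comp Primrec.id (Primrec.const (Nat.pair 1 2))).to_comp
  · intro x
    have h1 := hc x 1 2 (by norm_num) (by norm_num)
    have h2 : (1 + ((1 : ℕ) : ℝ) / ((2 : ℕ) : ℝ)) = 3 / 2 := by norm_num
    rw [h2] at h1
    exact h1

theorem hasClique_zero (M : List (List Bool)) : HasClique (M, 0) := by
  rw [hasClique_iff]
  exact ⟨fun _ => 0, fun i hi => absurd hi (by omega), fun i hi => absurd hi (by omega)⟩

theorem hasClique_one (M : List (List Bool)) : HasClique (M, 1) ↔ M.length ≠ 0 := by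
  rw [hasClique_iff]
  constructor
  · rintro ⟨a, ha, -⟩
    have := ha 0 (by omega)
    omega
  · intro h
    exact ⟨fun _ => 0, fun i _ => Nat.pos_of_ne_zero h, fun i hi j hj hij => absurd hij (by omega)⟩

/-- The clique problem is fixed-parameter tractable if Vertex Bisection can be approximated. -/
theorem clique_fpt {ρ : ℝ} (hρ : ρ < 2) (h : FptApprox ρ) :
    IsFpt (fun x : List (List Bool) × ℕ => x.2) HasClique := by
  obtain ⟨A, hA, hc⟩ := h
  obtain ⟨m, hm⟩ := exists_nat_one_div_lt (sub_pos.2 hρ)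
  let g : (List (List Bool) × ℕ) × Option (List ℕ) → Bool := fun p =>
    bif decide (p.1.2 = 0) then true else bif decide (p.1.2 = 1) then
      !(decide (p.1.1.length = 0)) else p.2.any (fun _ => true)
  have hg : NPC.Poly g := by
    have h1 : NPC.Poly (fun p : (List (List Bool) × ℕ) × Option (List ℕ) => p.1.2) :=
      NPC.Poly.snd (NPC.Poly.fst NPC.Poly.id)
    have h2 : NPC.Poly (fun p : (List (List Bool) × ℕ) × Option (List ℕ) => p.1.1.length) :=
      NPC.Poly.length (NPC.Poly.fst (NPC.Poly.fst NPC.Poly.id))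
    have h3 : NPC.Poly (fun p : (List (List Bool) × ℕ) × Option (List ℕ) =>
        p.2.any (fun _ => true)) :=
      NPC.Poly.optAny_fp (h := fun _ _ => true) (NPC.Poly.snd NPC.Poly.id) (NPC.Poly.const true)
    exact NPC.Poly.cond (NPC.Poly.decide_eq h1 (NPC.Poly.const 0)) (NPC.Poly.const true)
      (NPC.Poly.cond (NPC.Poly.decide_eq h1 (NPC.Poly.const 1))
        (NPC.Poly.not (NPC.Poly.decide_eq h2 (NPC.Poly.const 0))) h3)
  have hAr : FptTime (fun x : List (List Bool) × ℕ => x.2) (fun x => A (redB m x)) :=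
    FptTime.comp hA (H438.fpt_redB m) (G := fun k => KK m k)
      (NPC.H633.UF.two_pow (NPC.H633.UF.mul (NPC.H633.UF.mul (NPC.H633.UF.const (m + 1))
        NPC.H633.UF.id) NPC.H633.UF.id)).1 (fun a => le_rfl)
  refine ⟨fun x => g (x, A (redB m x)), FptTime.poly_comp hg
    ((FptTime.of_poly NPC.Poly.id).pair hAr), ?_⟩
  rintro ⟨M, k⟩
  show g ((M, k), A (redB m (M, k))) = true ↔ _
  rcases Nat.lt_or_ge k 2 with hk | hk
  · interval_cases k
    · simp only [g, decide_true, cond_true, true_iff]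
      exact hasClique_zero M
    · rw [hasClique_one]
      simp [g]
  · have e : g ((M, k), A (redB m (M, k))) = (A (redB m (M, k))).any (fun _ => true) := by
      have h0 : decide (k = 0) = false := by simp; omega
      have h1 : decide (k = 1) = false := by simp; omega
      simp only [g, h0, h1, cond_false]
    rw [e]
    obtain ⟨c1, c2⟩ := hc (redB m (M, k))
    constructor
    · intro h1
      cases hA' : A (redB m (M, k)) with
      | none => rw [hA'] at h1; simp at h1
      | some l =>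
        obtain ⟨S, -, hS, hcard⟩ := c2 l hA'
        refine no_dir (m := m) hk ⟨S, hS, ?_⟩
        have h2 : (0 : ℝ) < (m : ℝ) + 1 := by positivity
        have h3 : ρ ≤ 2 - 1 / ((m : ℝ) + 1) := by linarith
        have h4 : (S.card : ℝ) ≤ (2 - 1 / ((m : ℝ) + 1)) * ((redB m (M, k)).2 : ℝ) :=
          hcard.trans (mul_le_mul_of_nonneg_right h3 (Nat.cast_nonneg _))
        have h5 : ((m : ℝ) + 1) * (S.card : ℝ) ≤
            ((m : ℝ) + 1) * ((2 - 1 / ((m : ℝ) + 1)) * ((redB m (M, k)).2 : ℝ)) :=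
          mul_le_mul_of_nonneg_left h4 h2.le
        have h6 : ((m : ℝ) + 1) * ((2 - 1 / ((m : ℝ) + 1)) * ((redB m (M, k)).2 : ℝ)) =
            ((m : ℝ) + 1) * (2 * ((redB m (M, k)).2 : ℝ)) - ((redB m (M, k)).2 : ℝ) := by
          field_simp
        rw [h6] at h5
        have h7 : ((redB m (M, k)).2 : ℝ) + ((m : ℝ) + 1) * (S.card : ℝ) ≤
            ((m : ℝ) + 1) * (2 * ((redB m (M, k)).2 : ℝ)) := by linarith
        exact_mod_cast h7
    · intro h1
      cases hA' : A (redB m (M, k)) with
      | none =>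
        exfalso
        obtain ⟨S, hS, hcard⟩ := yes_dir (m := m) h1
        have := c1 hA' S hS
        omega
      | some l => rfl

/-- Approximation algorithms with ratio below two collapse `W[1]`. -/
theorem main (h : FptScheme ∨ ∃ ρ : ℝ, ρ < 2 ∧ FptApprox ρ) (α : Type) [TEnc α] (κ : α → ℕ)
    (P : α → Prop) (hP : InW1 κ P) : IsFpt κ P := by
  have h1 : ∃ ρ : ℝ, ρ < 2 ∧ FptApprox ρ := by
    rcases h with h | h
    · exact ⟨3 / 2, by norm_num, h.approx⟩
    · exact h
  obtain ⟨ρ, hρ, h2⟩ := h1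
  exact IsFpt.of_reduces hP (clique_fpt hρ h2)

end Pool.Agent.H438R3.VB
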