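import Pool.Agent.H438R3.VB.Yes

/-!
# From a small bisector to nodes
-/

namespace Pool.Agent.H438R3.VB

open Finset

variable {K W B Γ : ℕ} {zl : List Nd} {C : Nd → Nd → Bool}

/-- The vertices of the blobs of a set of pairs of nodes. -/
def bset (K W B : ℕ) (F : Finset (Nd × Nd)) : Finset Ds :=
  F.biUnion fun p => (range (bsz K W B p.1 p.2)).image fun r => bl p.1 p.2 r

theorem card_bset (F : Finset (Nd × Nd)) :
    (bset K W B F).card = ∑ p ∈ F, bsz K W B p.1 p.2 := by
  unfold bset
  rw [Finset.card_biUnion]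
  · refine Finset.sum_congr rfl fun p _ => ?_
    rw [Finset.card_image_of_injective _ (bl_inj _ _), card_range]
  · intro p _ p' _ hne
    simp only [Function.onFun]
    rw [Finset.disjoint_left]
    intro u hu hu'
    rw [mem_image] at hu hu'
    obtain ⟨r, -, rfl⟩ := hu
    obtain ⟨r', -, h⟩ := hu'
    simp only [bl, Prod.mk.injEq] at h
    exact hne (Prod.ext h.2.1.symm h.2.2.1.symm)

/-- Sums of sizes of blobs, by types. -/
theorem sum_bsz (F : Finset (Nd × Nd)) (hF : ∀ p ∈ F, p.1.1 < K ∧ p.2.1 < K) :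
    ∑ p ∈ F, bsz K W B p.1 p.2 =
      W * ∑ i ∈ range (K * K), (F.filter fun p => p.1.1 * K + p.2.1 = i).card * B ^ i := by
  have h1 : ∀ p ∈ F, p.1.1 * K + p.2.1 ∈ range (K * K) := by
    intro p hp
    obtain ⟨h2, h3⟩ := hF p hp
    rw [mem_range]
    have : (p.1.1 + 1) * K ≤ K * K := Nat.mul_le_mul_right _ h2
    have h4 : (p.1.1 + 1) * K = p.1.1 * K + K := by ring
    omega
  rw [← Finset.sum_fiberwise_of_maps_to h1, Finset.mul_sum]
  refine Finset.sum_congr rfl fun i _ => ?_
  have h2 : ∀ p ∈ F.filter (fun p => p.1.1 * K + p.2.1 = i), bsz K W B p.1 p.2 = W * B ^ i := by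
    intro p hp
    unfold bsz
    rw [(mem_filter.1 hp).2]
  rw [Finset.sum_congr rfl h2, Finset.sum_const, smul_eq_mul]
  ring

/-- The nodes in a set of descriptors. -/
def nodesOf (S : Finset Ds) : Finset Nd := (S.filter fun u => u.1 = 1).image fun u => u.2.1

theorem card_nodesOf_le (S : Finset Ds) : (nodesOf S).card ≤ S.card :=
  Finset.card_image_le.trans (Finset.card_filter_le _ _)

theorem mem_nodesOf {S : Finset Ds} {z : Nd} (h : nd z ∈ S) : z ∈ nodesOf S :=
  mem_image.2 ⟨nd z, mem_filter.2 ⟨h, rfl⟩, rfl⟩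

/-- Main step, when the core is on the first side. -/
theorem no_core (hz : zl.Nodup) (hzK : ∀ z ∈ zl, z.1 < K) (hK : 1 ≤ K) (hB : 4 * K * K < B)
    (hW : 4 * K ≤ W) (hΓ : 2 * W * B ^ (K * K) ≤ Γ) {S V₁ V₂ : Finset Ds}
    (hP : Part (LL K W B Γ zl C).toFinset S V₁ V₂) (hS : S.card ≤ 2 * K) {r₀ : ℕ}
    (hr₀ : r₀ < Γ) (hc : co r₀ ∈ V₁) :
    ∀ a < K, ∀ b < K, ∃ z ∈ nodesOf S, ∃ z' ∈ nodesOf S, z.1 = a ∧ z'.1 = b ∧
      z ∈ zl ∧ z' ∈ zl ∧ C z z' = true := by
  set U := (LL K W B Γ zl C).toFinset with hU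
  have hB3 : 3 ≤ B := by nlinarith
  have hcard := hP.card
  obtain ⟨hSV1, hSV2, hV12, hun, hb1, hb2, hadj⟩ := hP
  have hmemU : ∀ u, u ∈ U ↔ u ∈ LL K W B Γ zl C := fun u => List.mem_toFinset
  have hV1U : V₁ ⊆ U := by
    intro u hu
    rw [← hun]
    exact mem_union_left _ (mem_union_right _ hu)
  have hV2U : V₂ ⊆ U := by
    intro u hu
    rw [← hun]
    exact mem_union_right _ hu
  have hcase : ∀ u ∈ U, u ∉ S → u ∉ V₂ → u ∈ V₁ := by
    intro u hu h1 h2
    rw [← hun, mem_union, mem_union] at hu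
    tauto
  have hPow : 0 < B ^ (K * K) := Nat.pow_pos (by omega)
  have hWB : 4 * K ≤ W * B ^ (K * K) := le_trans hW (Nat.le_mul_of_pos_right _ hPow)
  have hTT := two_TT_le (K := K) (W := W) hB3
  have hΓ2 : K + 2 * TT K W B ≤ Γ := by
    have : 2 * W * B ^ (K * K) = W * B ^ (K * K) + W * B ^ (K * K) := by ring
    omega
  have hUc : U.card = 2 * dsz K W B Γ zl C + K + 2 * TT K W B := by
    rw [hU, List.toFinset_card_of_nodup (nodup_LL hz), length_LL hΓ2]
  -- nodes of `zl` outside `S` are on the first side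
  have hnode : ∀ z ∈ zl, nd z ∉ S → nd z ∈ V₁ := by
    intro z hzz hzS
    refine hcase _ ?_ hzS ?_
    · rw [hmemU, mem_LL]; exact Or.inr (Or.inl ⟨z, hzz, rfl⟩)
    · intro h
      have := (hadj _ hc _ h).1
      simp [adjD, co, nd] at this
  have hcore : ∀ r < Γ, co r ∉ V₂ := by
    intro r _ h
    have := (hadj _ hc _ h).1
    simp [adjD, co] at this
  have hnode2 : ∀ z, nd z ∉ V₂ := by
    intro z h
    have := (hadj _ hc _ h).1
    simp [adjD, co, nd] at this
  -- the pairs of nodes whose blobs meet the second side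
  let F : Finset (Nd × Nd) := (V₂.filter fun u => u.1 = 2).image fun u => (u.2.1, u.2.2.1)
  have hF : ∀ p ∈ F, ∃ r, bl p.1 p.2 r ∈ V₂ := by
    intro p hp
    obtain ⟨u, hu, rfl⟩ := mem_image.1 hp
    obtain ⟨h1, h2⟩ := mem_filter.1 hu
    refine ⟨u.2.2.2, ?_⟩
    have : bl u.2.1 u.2.2.1 u.2.2.2 = u := by
      unfold bl
      rw [← h2]
    simpa [this] using h1
  have hbl : ∀ z z' r, bl z z' r ∈ U → z ∈ zl ∧ z' ∈ zl ∧ C z z' = true ∧
      r < bsz K W B z z' := by
    intro z z' r h
    rw [hmemU, mem_LL] at h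
    rcases h with ⟨r', -, h⟩ | ⟨y, -, h⟩ | ⟨y, hy, y', hy', hC, r', hr', h⟩ | ⟨r', -, h⟩
    · simp [bl, co] at h
    · simp [bl, nd] at h
    · simp only [bl, Prod.mk.injEq] at h
      have e1 : z = y := h.2.1
      have e2 : z' = y' := h.2.2.1
      subst e1; subst e2
      exact ⟨hy, hy', hC, by rw [h.2.2.2]; exact hr'⟩
    · simp [bl, dd] at h
  have hF2 : ∀ p ∈ F, p.1 ∈ nodesOf S ∧ p.2 ∈ nodesOf S ∧ p.1 ∈ zl ∧ p.2 ∈ zl ∧
      C p.1 p.2 = true := by
    intro p hp
    obtain ⟨r, hr⟩ := hF p hp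
    obtain ⟨h1, h2, h3, h4⟩ := hbl _ _ _ (hV2U hr)
    refine ⟨?_, ?_, h1, h2, h3⟩
    · by_contra h
      have h5 : nd p.1 ∉ S := fun h' => h (mem_nodesOf h')
      have := (hadj _ (hnode _ h1 h5) _ hr).1
      simp [adjD, nd, bl] at this
    · by_contra h
      have h5 : nd p.2 ∉ S := fun h' => h (mem_nodesOf h')
      have := (hadj _ (hnode _ h2 h5) _ hr).1
      simp [adjD, nd, bl] at this
  have hFK : ∀ p ∈ F, p.1.1 < K ∧ p.2.1 < K := fun p hp =>
    ⟨hzK _ (hF2 p hp).2.2.1, hzK _ (hF2 p hp).2.2.2.1⟩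
  -- the blobs of `F` are contained in the second side and `S`
  have hsub1 : V₂.filter (fun u => u.1 = 2) ⊆ bset K W B F := by
    intro u hu
    obtain ⟨h1, h2⟩ := mem_filter.1 hu
    have e : bl u.2.1 u.2.2.1 u.2.2.2 = u := by
      unfold bl
      rw [← h2]
    have h3 := hbl u.2.1 u.2.2.1 u.2.2.2 (by rw [e]; exact hV2U h1)
    unfold bset
    rw [mem_biUnion]
    refine ⟨(u.2.1, u.2.2.1), mem_image_of_mem _ hu, ?_⟩
    rw [mem_image]
    exact ⟨u.2.2.2, mem_range.2 h3.2.2.2, e⟩
  have hsub2 : bset K W B F ⊆ V₂.filter (fun u => u.1 = 2) ∪ S.filter (fun u => u.1 = 2) := by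
    intro u hu
    unfold bset at hu
    rw [mem_biUnion] at hu
    obtain ⟨p, hp, hu⟩ := hu
    rw [mem_image] at hu
    obtain ⟨r, hr, rfl⟩ := hu
    rw [mem_range] at hr
    obtain ⟨r', hr'⟩ := hF p hp
    obtain ⟨-, -, h1, h2, h3⟩ := hF2 p hp
    have h4 : bl p.1 p.2 r ∈ U := by
      rw [hmemU, mem_LL]
      exact Or.inr (Or.inr (Or.inl ⟨_, h1, _, h2, h3, r, hr, rfl⟩))
    rw [← hun, mem_union, mem_union] at h4
    rw [mem_union, mem_filter, mem_filter]
    rcases h4 with (h4 | h4) | h4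
    · exact Or.inr ⟨h4, rfl⟩
    · have := (hadj _ h4 _ hr').1
      simp [adjD, bl] at this
    · exact Or.inl ⟨h4, rfl⟩
  have hle1 := Finset.card_le_card hsub1
  have hle2 := (Finset.card_le_card hsub2).trans (Finset.card_union_le _ _)
  rw [card_bset] at hle1 hle2
  -- the number of blobs of each type
  have hFc : ∀ i, (F.filter fun p => p.1.1 * K + p.2.1 = i).card < B := by
    intro i
    have h1 : F.filter (fun p => p.1.1 * K + p.2.1 = i) ⊆ nodesOf S ×ˢ nodesOf S := by
      intro p hp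
      have := hF2 p (mem_filter.1 hp).1
      exact mem_product.2 ⟨this.1, this.2.1⟩
    have h2 := Finset.card_le_card h1
    rw [card_product] at h2
    have h3 := card_nodesOf_le S
    have h4 : (nodesOf S).card * (nodesOf S).card ≤ (2 * K) * (2 * K) :=
      Nat.mul_le_mul (h3.trans hS) (h3.trans hS)
    have h5 : (2 * K) * (2 * K) = 4 * K * K := by ring
    omega
  have hsum := sum_bsz (W := W) (B := B) F hFK
  -- an upper bound for the blobs
  have hup : ∑ p ∈ F, bsz K W B p.1 p.2 ≤ W * B ^ (K * K) := by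
    rw [hsum]
    refine Nat.mul_le_mul_left _ ?_
    have h1 : ∀ m, ∑ i ∈ range m, (B - 1) * B ^ i + 1 = B ^ m := by
      intro m
      induction m with
      | zero => simp
      | succ m ih =>
        rw [Finset.sum_range_succ, pow_succ]
        obtain ⟨b, hb⟩ : ∃ b, B = b + 1 := ⟨B - 1, by omega⟩
        rw [hb] at ih ⊢
        simp only [Nat.add_sub_cancel] at ih ⊢
        nlinarith
    have h2 : ∑ i ∈ range (K * K), (F.filter fun p => p.1.1 * K + p.2.1 = i).card * B ^ i ≤
        ∑ i ∈ range (K * K), (B - 1) * B ^ i :=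
      Finset.sum_le_sum fun i _ => Nat.mul_le_mul_right _ (by have := hFc i; omega)
    have := h1 (K * K)
    omega
  -- counting the second side
  have hV2split : V₂.card = (V₂.filter fun u => u.1 = 2).card +
      (V₂.filter fun u => u.1 = 3).card := by
    rw [← Finset.card_union_of_disjoint]
    · congr 1
      ext u
      rw [mem_union, mem_filter, mem_filter]
      constructor
      · intro hu
        have h1 := hV2U hu
        rw [hmemU, mem_LL] at h1
        rcases h1 with ⟨r', hr', rfl⟩ | ⟨y, -, rfl⟩ | ⟨y, -, y', -, -, r', -, rfl⟩ | ⟨r', -, rfl⟩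
        · exact absurd hu (hcore r' hr')
        · exact absurd hu (hnode2 y)
        · exact Or.inl ⟨hu, rfl⟩
        · exact Or.inr ⟨hu, rfl⟩
      · rintro (h | h) <;> exact h.1
    · rw [Finset.disjoint_left]
      intro u hu hu'
      have h1 := (mem_filter.1 hu).2
      have h2 := (mem_filter.1 hu').2
      omega
  -- the core is big
  have hV1big : Γ ≤ V₁.card + S.card := by
    have h1 : (range Γ).image co ⊆ V₁ ∪ S := by
      intro u hu
      obtain ⟨r, hr, rfl⟩ := mem_image.1 hu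
      have h2 : co r ∈ U := by
        rw [hmemU, mem_LL]
        exact Or.inl ⟨r, mem_range.1 hr, rfl⟩
      rw [mem_union]
      by_cases h3 : co r ∈ S
      · exact Or.inr h3
      · exact Or.inl (hcase _ h2 h3 (hcore r (mem_range.1 hr)))
    have h2 := (Finset.card_le_card h1).trans (Finset.card_union_le _ _)
    rwa [Finset.card_image_of_injective _ co_inj, card_range] at h2
  -- the isolated clique is on the second side
  have hD : (V₂.filter fun u => u.1 = 3).card + (S.filter fun u => u.1 = 3).card =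
      dsz K W B Γ zl C := by
    have hne : (V₂.filter fun u => u.1 = 3).Nonempty := by
      rw [Finset.nonempty_iff_ne_empty]
      intro h
      rw [h, card_empty] at hV2split
      have : 2 * W * B ^ (K * K) = W * B ^ (K * K) + W * B ^ (K * K) := by ring
      omega
    obtain ⟨v, hv⟩ := hne
    obtain ⟨hv1, hv2⟩ := mem_filter.1 hv
    rw [← Finset.card_union_of_disjoint]
    · have : V₂.filter (fun u => u.1 = 3) ∪ S.filter (fun u => u.1 = 3) =
          (range (dsz K W B Γ zl C)).image dd := by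
        ext u
        rw [mem_union, mem_filter, mem_filter, mem_image]
        constructor
        · intro h
          have h1 : u ∈ U ∧ u.1 = 3 := by
            rcases h with h | h
            · exact ⟨hV2U h.1, h.2⟩
            · refine ⟨?_, h.2⟩
              rw [← hun]
              exact mem_union_left _ (mem_union_left _ h.1)
          obtain ⟨h1, h2⟩ := h1
          rw [hmemU, mem_LL] at h1
          rcases h1 with ⟨r', hr', rfl⟩ | ⟨y, -, rfl⟩ | ⟨y, -, y', -, -, r', -, rfl⟩ | ⟨r', h', rfl⟩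
          · simp [co] at h2
          · simp [nd] at h2
          · simp [bl] at h2
          · exact ⟨r', mem_range.2 h', rfl⟩
        · rintro ⟨r, hr, rfl⟩
          have h1 : dd r ∈ U := by
            rw [hmemU, mem_LL]
            exact Or.inr (Or.inr (Or.inr ⟨r, mem_range.1 hr, rfl⟩))
          rw [← hun, mem_union, mem_union] at h1
          rcases h1 with (h1 | h1) | h1
          · exact Or.inr ⟨h1, rfl⟩
          · have := (hadj _ h1 _ hv1).1
            simp [adjD, dd, hv2] at this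
          · exact Or.inl ⟨h1, rfl⟩
      rw [this, Finset.card_image_of_injective _ dd_inj, card_range]
    · rw [Finset.disjoint_left]
      intro u hu hu'
      exact Finset.disjoint_left.1 hSV2 (mem_filter.1 hu').1 (mem_filter.1 hu).1
  have hS23 : (S.filter fun u => u.1 = 2).card + (S.filter fun u => u.1 = 3).card ≤ S.card := by
    rw [← Finset.card_union_of_disjoint]
    · refine Finset.card_le_card ?_
      intro u hu
      rcases mem_union.1 hu with h | h <;> exact (mem_filter.1 h).1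
    · rw [Finset.disjoint_left]
      intro u hu hu'
      have h1 := (mem_filter.1 hu).2
      have h2 := (mem_filter.1 hu').2
      omega
  -- the two sums agree
  have hX : TT K W B = W * ∑ i ∈ range (K * K), B ^ i := rfl
  have heq : ∑ i ∈ range (K * K), (F.filter fun p => p.1.1 * K + p.2.1 = i).card * B ^ i =
      ∑ i ∈ range (K * K), B ^ i := by
    generalize ∑ i ∈ range (K * K), (F.filter fun p => p.1.1 * K + p.2.1 = i).card * B ^ i = y
      at *
    generalize ∑ i ∈ range (K * K), B ^ i = x at *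
    rw [hsum] at hle1 hle2 hup
    rw [hX] at hUc
    clear hsum hFc hbl hF2 hFK hsub1 hsub2 hF hTT hΓ2
    rcases lt_trichotomy y x with h | h | h
    · exfalso
      have h1 : W * (y + 1) ≤ W * x := Nat.mul_le_mul_left _ h
      rw [Nat.mul_add, Nat.mul_one] at h1
      omega
    · exact h
    · exfalso
      have h1 : W * (x + 1) ≤ W * y := Nat.mul_le_mul_left _ h
      rw [Nat.mul_add, Nat.mul_one] at h1
      omega
  have hone := digits_one (by omega) _ (fun i _ => hFc i) heq
  intro a ha b hb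
  have h1 : a * K + b < K * K := by
    have : (a + 1) * K ≤ K * K := Nat.mul_le_mul_right _ ha
    have h4 : (a + 1) * K = a * K + K := by ring
    omega
  have h2 := hone _ h1
  obtain ⟨p, hp⟩ := Finset.card_pos.1 (by omega :
    0 < (F.filter fun p => p.1.1 * K + p.2.1 = a * K + b).card)
  obtain ⟨hp1, hp2⟩ := mem_filter.1 hp
  obtain ⟨h3, h4, h5, h6, h7⟩ := hF2 p hp1
  obtain ⟨h8, h9⟩ := hFK p hp1
  have h10 : p.1.1 = a := by
    have e1 : (p.1.1 * K + p.2.1) / K = (a * K + b) / K := by rw [hp2]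
    rw [Nat.mul_comm, Nat.mul_comm a, Nat.mul_add_div (by omega), Nat.mul_add_div (by omega),
      Nat.div_eq_of_lt h9, Nat.div_eq_of_lt hb] at e1
    omega
  have h11 : p.2.1 = b := by rw [h10] at hp2; omega
  exact ⟨p.1, h3, p.2, h4, h10, h11, h5, h6, h7⟩

/-- Main step. -/
theorem no_part (hz : zl.Nodup) (hzK : ∀ z ∈ zl, z.1 < K) (hK : 1 ≤ K) (hB : 4 * K * K < B)
    (hW : 4 * K ≤ W) (hΓ : 2 * W * B ^ (K * K) ≤ Γ) {S V₁ V₂ : Finset Ds}
    (hP : Part (LL K W B Γ zl C).toFinset S V₁ V₂) (hS : S.card ≤ 2 * K) :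
    ∀ a < K, ∀ b < K, ∃ z ∈ nodesOf S, ∃ z' ∈ nodesOf S, z.1 = a ∧ z'.1 = b ∧
      z ∈ zl ∧ z' ∈ zl ∧ C z z' = true := by
  have hPow : 0 < B ^ (K * K) := Nat.pow_pos (by omega)
  have hWB : 4 * K ≤ W * B ^ (K * K) := le_trans hW (Nat.le_mul_of_pos_right _ hPow)
  have : 2 * W * B ^ (K * K) = W * B ^ (K * K) + W * B ^ (K * K) := by ring
  obtain ⟨r, hr, hrS⟩ : ∃ r < Γ, co r ∉ S := by
    by_contra h
    push Not at h
    have h1 : (range Γ).image co ⊆ S := by
      intro u hu
      obtain ⟨r, hr, rfl⟩ := mem_image.1 hu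
      exact h r (mem_range.1 hr)
    have h2 := Finset.card_le_card h1
    rw [Finset.card_image_of_injective _ co_inj, card_range] at h2
    omega
  have h1 : co r ∈ (LL K W B Γ zl C).toFinset := by
    rw [List.mem_toFinset, mem_LL]
    exact Or.inl ⟨r, hr, rfl⟩
  rw [← hP.2.2.2.1, mem_union, mem_union] at h1
  rcases h1 with (h1 | h1) | h1
  · exact absurd h1 hrS
  · exact no_core hz hzK hK hB hW hΓ hP hS hr h1
  · exact no_core hz hzK hK hB hW hΓ hP.swap hS hr h1

end Pool.Agent.H438R3.VB
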