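import Pool.Agent.H438R3.VB.Red
import Pool.Agent.H633R2.FptPad
import Pool.Agent.H671R2.PolyAuto
import Pool.Agent.H671R2.CK.K7

/-!
# The reduction takes polynomial time on padded instances
-/

namespace Pool.Agent.NPC.H438

open Finset Pool.Agent.NPC.H633 Pool.Agent.H438R3.VB
open Pool.Agent.H633R2 hiding TT Ds dg

/-- Powers of the base. -/
def pw (m k K i : ℕ) : ℕ := 2 ^ ((2 * ((m + 1) * (k * k)) + 3) * min i (K * K))

/-- Sizes of the blobs. -/
def szx (m k K G : ℕ) (z z' : Nd) : ℕ := min (4 * K * pw m k K (z.1 * K + z'.1)) G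

def L0x (m k q K G : ℕ) (M : List (List Bool)) : List Ds :=
  (List.range G).map co ++ ((nodeL M.length k q K).map nd ++
    (nodeL M.length k q K).flatMap fun z => (nodeL M.length k q K).flatMap fun z' =>
      bif cmpB M.length k ((m + 1) * k) M z z' then
        (List.range (szx m k K G z z')).map (bl z z') else [])

def TTx (m k K G : ℕ) : ℕ :=
  4 * K * ((List.range (K * K)).map fun i => min (pw m k K i) G).sum

def dx (m k q K G : ℕ) (M : List (List Bool)) : ℕ :=
  (L0x m k q K G M).length - (K + 2 * TTx m k K G)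

def LLx (m k q K G : ℕ) (M : List (List Bool)) : List Ds :=
  L0x m k q K G M ++ (List.range (dx m k q K G M)).map dd

section

variable {α : Type} [TEnc α]

theorem UPoly.minP {n g : α → ℕ} (hn : Poly n) (hg : UPoly g) :
    UPoly (fun a => min (n a) (g a)) :=
  UPoly.of_le (Poly.min hn hg.toPoly) hg fun _ => Nat.min_le_right _ _

variable {M : α → List (List Bool)} {k q K G i : α → ℕ} {s : α → ℕ} {z z' : α → Nd} (m : ℕ)

theorem poly_pw (hk : UPoly k) (hK : UPoly K) (hi : Poly i) :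
    Poly (fun a => pw m (k a) (K a) (i a)) := by
  unfold pw
  refine Pool.Agent.CK.poly_pow2 ?_
  refine UPoly.mul ?_ (UPoly.minP hi (UPoly.mul hK hK))
  exact UPoly.add (UPoly.mul (UPoly.const 2) (UPoly.mul (UPoly.const (m + 1)) (UPoly.mul hk hk)))
    (UPoly.const 3)

theorem upoly_szx (hk : UPoly k) (hK : UPoly K) (hG : UPoly G) (hz : Poly z) (hz' : Poly z') :
    UPoly (fun a => szx m (k a) (K a) (G a) (z a) (z' a)) := by
  unfold szx
  refine UPoly.minP ?_ hG
  have hK' : Poly K := hK.toPoly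
  refine Poly.mul (Poly.mul (Poly.const 4) hK') (poly_pw m hk hK ?_)
  exact Poly.add (Poly.mul (Poly.fst hz) hK') (Poly.fst hz')

theorem upoly_TTx (hk : UPoly k) (hK : UPoly K) (hG : UPoly G) :
    UPoly (fun a => TTx m (k a) (K a) (G a)) := by
  unfold TTx
  refine UPoly.mul (UPoly.mul (UPoly.const 4) hK) ?_
  have h1 : Poly (fun p : α × ℕ => p.1) := Poly.fst Poly.id
  refine UPoly.sumMap (F := fun a i => min (pw m (k a) (K a) i) (G a)) (UPoly.mul hK hK).range ?_
  exact UPoly.minP (poly_pw m (hk.comp h1) (hK.comp h1) (Poly.snd Poly.id)) (hG.comp h1)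

theorem upoly_R1 {n : α → ℕ} (hn : UPoly n) (hk : UPoly k) (hq : UPoly q) :
    UPoly (fun a => R1 (n a) (k a) (q a)) := by
  unfold R1
  exact UPoly.add (UPoly.mul hk (UPoly.mul hq (UPoly.mul hk hn))) (UPoly.const 1)

theorem upoly_R2 {n : α → ℕ} (hn : UPoly n) (hk : UPoly k) (hq : UPoly q) :
    UPoly (fun a => R2 (n a) (k a) (q a)) := by
  unfold R2
  exact UPoly.add (UPoly.mul hk (UPoly.mul hq (UPoly.mul (UPoly.mul hk hn) (UPoly.mul hk hn))))
    (UPoly.const 1)

theorem poly_nodeL {n : α → ℕ} (hn : UPoly n) (hk : UPoly k) (hq : UPoly q) (hK : UPoly K) :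
    Poly (fun a => nodeL (n a) (k a) (q a) (K a)) := by
  unfold nodeL
  have h1 : Poly (fun p : α × ℕ => p.1) := Poly.fst Poly.id
  have h2 : Poly (fun p : (α × ℕ) × ℕ => p.1.1) := Poly.fst (Poly.fst Poly.id)
  refine Poly.flatMap (F := fun b a => (List.range (R1 (n b) (k b) (q b))).flatMap fun x =>
    (List.range (R2 (n b) (k b) (q b))).map fun y => ((a, x, y) : Nd)) hK.range ?_
  refine Poly.flatMap (α := α × ℕ) (F := fun p x =>
    (List.range (R2 (n p.1) (k p.1) (q p.1))).map fun y => ((p.2, x, y) : Nd))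
    (upoly_R1 (hn.comp h1) (hk.comp h1) (hq.comp h1)).range ?_
  refine Poly.map (α := (α × ℕ) × ℕ) (F := fun p y => ((p.1.2, p.2, y) : Nd))
    (upoly_R2 (hn.comp h2) (hk.comp h2) (hq.comp h2)).range ?_
  fun_prop

theorem poly_dg {x l : α → ℕ} (hs : UPoly s) (hk : UPoly k) (hx : Poly x) (hl : Poly l) :
    Poly (fun a => dg (s a) (k a) (x a) (l a)) := by
  unfold dg
  refine Poly.mod (Poly.div hx (Pool.Agent.CK.poly_pow2 ?_)) (Pool.Agent.CK.poly_pow2 hs)
  exact UPoly.mul hs (UPoly.minP hl hk)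

theorem poly_vid {n l x : α → ℕ} (hn : Poly n) (hl : Poly l) (hx : Poly x) :
    Poly (fun a => vid (n a) (l a) (x a)) := by
  unfold vid
  fun_prop

theorem poly_cmpB {n : α → ℕ} (hn : UPoly n) (hk : UPoly k) (hs : UPoly s) (hM : Poly M)
    (hz : Poly z) (hz' : Poly z') :
    Poly (fun a => cmpB (n a) (k a) (s a) (M a) (z a) (z' a)) := by
  unfold cmpB
  have hn' : Poly n := hn.toPoly
  have a1 : Poly (fun p : α × ℕ => p.1) := Poly.fst Poly.id
  have a2 : Poly (fun p : (α × ℕ) × ℕ => p.1.1) := Poly.fst (Poly.fst Poly.id)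
  have a3 : Poly (fun p : ((α × ℕ) × ℕ) × ℕ => p.1.1.1) := Poly.fst (Poly.fst (Poly.fst Poly.id))
  have a4 : Poly (fun p : (((α × ℕ) × ℕ) × ℕ) × ℕ => p.1.1.1.1) :=
    Poly.fst (Poly.fst (Poly.fst (Poly.fst Poly.id)))
  refine Poly.all (p := fun a i => (List.range (k a)).all fun j =>
    !(decide (i < j)) || (!((List.range (k a)).all fun l =>
      (decide (l = i) || decide (l = j)) ||
        decide (dg (s a) (k a) (z a).1 l = dg (s a) (k a) (z' a).1 l)) ||
    (List.range (n a)).any fun u => (List.range (n a)).any fun v =>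
      edg (M a) u v && (decide ((z a).2.1 + dg (s a) (k a) (z' a).1 i * vid (n a) i u +
        dg (s a) (k a) (z' a).1 j * vid (n a) j v =
        (z' a).2.1 + dg (s a) (k a) (z a).1 i * vid (n a) i u +
          dg (s a) (k a) (z a).1 j * vid (n a) j v) &&
      decide ((z a).2.2 + dg (s a) (k a) (z' a).1 i * (vid (n a) i u * vid (n a) i u) +
          dg (s a) (k a) (z' a).1 j * (vid (n a) j v * vid (n a) j v) =
        (z' a).2.2 + dg (s a) (k a) (z a).1 i * (vid (n a) i u * vid (n a) i u) +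
          dg (s a) (k a) (z a).1 j * (vid (n a) j v * vid (n a) j v))))) hk.range ?_
  refine Poly.all (α := α × ℕ) (p := fun p j =>
    !(decide (p.2 < j)) || (!((List.range (k p.1)).all fun l =>
      (decide (l = p.2) || decide (l = j)) ||
        decide (dg (s p.1) (k p.1) (z p.1).1 l = dg (s p.1) (k p.1) (z' p.1).1 l)) ||
    (List.range (n p.1)).any fun u => (List.range (n p.1)).any fun v =>
      edg (M p.1) u v && (decide ((z p.1).2.1 + dg (s p.1) (k p.1) (z' p.1).1 p.2 * vid (n p.1) p.2 u +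
        dg (s p.1) (k p.1) (z' p.1).1 j * vid (n p.1) j v =
        (z' p.1).2.1 + dg (s p.1) (k p.1) (z p.1).1 p.2 * vid (n p.1) p.2 u +
          dg (s p.1) (k p.1) (z p.1).1 j * vid (n p.1) j v) &&
      decide ((z p.1).2.2 + dg (s p.1) (k p.1) (z' p.1).1 p.2 * (vid (n p.1) p.2 u * vid (n p.1) p.2 u) +
          dg (s p.1) (k p.1) (z' p.1).1 j * (vid (n p.1) j v * vid (n p.1) j v) =
        (z' p.1).2.2 + dg (s p.1) (k p.1) (z p.1).1 p.2 * (vid (n p.1) p.2 u * vid (n p.1) p.2 u) +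
          dg (s p.1) (k p.1) (z p.1).1 j * (vid (n p.1) j v * vid (n p.1) j v)))))
    (hk.comp a1).range ?_
  have i2 : Poly (fun p : (α × ℕ) × ℕ => p.1.2) := Poly.snd (Poly.fst Poly.id)
  have j2 : Poly (fun p : (α × ℕ) × ℕ => p.2) := Poly.snd Poly.id
  refine Poly.or (Poly.not (Poly.decide_lt i2 j2)) (Poly.or (Poly.not ?_) ?_)
  · refine Poly.all (α := (α × ℕ) × ℕ) (p := fun p l =>
      (decide (l = p.1.2) || decide (l = p.2)) ||
        decide (dg (s p.1.1) (k p.1.1) (z p.1.1).1 l = dg (s p.1.1) (k p.1.1) (z' p.1.1).1 l))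
      (hk.comp a2).range ?_
    have i3 : Poly (fun p : ((α × ℕ) × ℕ) × ℕ => p.1.1.2) := Poly.snd (Poly.fst (Poly.fst Poly.id))
    have j3 : Poly (fun p : ((α × ℕ) × ℕ) × ℕ => p.1.2) := Poly.snd (Poly.fst Poly.id)
    have l3 : Poly (fun p : ((α × ℕ) × ℕ) × ℕ => p.2) := Poly.snd Poly.id
    refine Poly.or (Poly.or (Poly.decide_eq l3 i3) (Poly.decide_eq l3 j3)) ?_
    exact Poly.decide_eq (poly_dg (hs.comp a3) (hk.comp a3) (Poly.fst (hz.comp a3)) l3)
      (poly_dg (hs.comp a3) (hk.comp a3) (Poly.fst (hz'.comp a3)) l3)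
  · refine Poly.any (α := (α × ℕ) × ℕ) (p := fun p u => (List.range (n p.1.1)).any fun v =>
      edg (M p.1.1) u v && (decide ((z p.1.1).2.1 +
        dg (s p.1.1) (k p.1.1) (z' p.1.1).1 p.1.2 * vid (n p.1.1) p.1.2 u +
        dg (s p.1.1) (k p.1.1) (z' p.1.1).1 p.2 * vid (n p.1.1) p.2 v =
        (z' p.1.1).2.1 + dg (s p.1.1) (k p.1.1) (z p.1.1).1 p.1.2 * vid (n p.1.1) p.1.2 u +
          dg (s p.1.1) (k p.1.1) (z p.1.1).1 p.2 * vid (n p.1.1) p.2 v) &&
      decide ((z p.1.1).2.2 + dg (s p.1.1) (k p.1.1) (z' p.1.1).1 p.1.2 *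
          (vid (n p.1.1) p.1.2 u * vid (n p.1.1) p.1.2 u) +
          dg (s p.1.1) (k p.1.1) (z' p.1.1).1 p.2 * (vid (n p.1.1) p.2 v * vid (n p.1.1) p.2 v) =
        (z' p.1.1).2.2 + dg (s p.1.1) (k p.1.1) (z p.1.1).1 p.1.2 *
          (vid (n p.1.1) p.1.2 u * vid (n p.1.1) p.1.2 u) +
          dg (s p.1.1) (k p.1.1) (z p.1.1).1 p.2 *
            (vid (n p.1.1) p.2 v * vid (n p.1.1) p.2 v))))
      (hn.comp a2).range ?_
    refine Poly.any (α := ((α × ℕ) × ℕ) × ℕ) (p := fun p v =>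
      edg (M p.1.1.1) p.2 v && (decide ((z p.1.1.1).2.1 +
        dg (s p.1.1.1) (k p.1.1.1) (z' p.1.1.1).1 p.1.1.2 * vid (n p.1.1.1) p.1.1.2 p.2 +
        dg (s p.1.1.1) (k p.1.1.1) (z' p.1.1.1).1 p.1.2 * vid (n p.1.1.1) p.1.2 v =
        (z' p.1.1.1).2.1 + dg (s p.1.1.1) (k p.1.1.1) (z p.1.1.1).1 p.1.1.2 *
          vid (n p.1.1.1) p.1.1.2 p.2 +
          dg (s p.1.1.1) (k p.1.1.1) (z p.1.1.1).1 p.1.2 * vid (n p.1.1.1) p.1.2 v) &&
      decide ((z p.1.1.1).2.2 + dg (s p.1.1.1) (k p.1.1.1) (z' p.1.1.1).1 p.1.1.2 *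
          (vid (n p.1.1.1) p.1.1.2 p.2 * vid (n p.1.1.1) p.1.1.2 p.2) +
          dg (s p.1.1.1) (k p.1.1.1) (z' p.1.1.1).1 p.1.2 *
            (vid (n p.1.1.1) p.1.2 v * vid (n p.1.1.1) p.1.2 v) =
        (z' p.1.1.1).2.2 + dg (s p.1.1.1) (k p.1.1.1) (z p.1.1.1).1 p.1.1.2 *
          (vid (n p.1.1.1) p.1.1.2 p.2 * vid (n p.1.1.1) p.1.1.2 p.2) +
          dg (s p.1.1.1) (k p.1.1.1) (z p.1.1.1).1 p.1.2 *
            (vid (n p.1.1.1) p.1.2 v * vid (n p.1.1.1) p.1.2 v))))
      (hn.comp a3).range ?_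
    have i4 : Poly (fun p : (((α × ℕ) × ℕ) × ℕ) × ℕ => p.1.1.1.2) :=
      Poly.snd (Poly.fst (Poly.fst (Poly.fst Poly.id)))
    have j4 : Poly (fun p : (((α × ℕ) × ℕ) × ℕ) × ℕ => p.1.1.2) :=
      Poly.snd (Poly.fst (Poly.fst Poly.id))
    have u4 : Poly (fun p : (((α × ℕ) × ℕ) × ℕ) × ℕ => p.1.2) := Poly.snd (Poly.fst Poly.id)
    have v4 : Poly (fun p : (((α × ℕ) × ℕ) × ℕ) × ℕ => p.2) := Poly.snd Poly.id
    have hk4 := hk.comp a4
    have hs4 := hs.comp a4
    have hz4 : Poly (fun p : (((α × ℕ) × ℕ) × ℕ) × ℕ => z p.1.1.1.1) := hz.comp a4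
    have hz4' : Poly (fun p : (((α × ℕ) × ℕ) × ℕ) × ℕ => z' p.1.1.1.1) := hz'.comp a4
    have hM4 : Poly (fun p : (((α × ℕ) × ℕ) × ℕ) × ℕ => M p.1.1.1.1) := hM.comp a4
    have hn4 : Poly (fun p : (((α × ℕ) × ℕ) × ℕ) × ℕ => n p.1.1.1.1) := hn'.comp a4
    have d1 := poly_dg hs4 hk4 (Poly.fst hz4) i4
    have d2 := poly_dg hs4 hk4 (Poly.fst hz4) j4
    have d1' := poly_dg hs4 hk4 (Poly.fst hz4') i4
    have d2' := poly_dg hs4 hk4 (Poly.fst hz4') j4
    have w1 := poly_vid hn4 i4 u4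
    have w2 := poly_vid hn4 j4 v4
    have z1 : Poly (fun p : (((α × ℕ) × ℕ) × ℕ) × ℕ => (z p.1.1.1.1).2.1) :=
      Poly.fst (Poly.snd hz4)
    have z2 : Poly (fun p : (((α × ℕ) × ℕ) × ℕ) × ℕ => (z p.1.1.1.1).2.2) :=
      Poly.snd (Poly.snd hz4)
    have z1' : Poly (fun p : (((α × ℕ) × ℕ) × ℕ) × ℕ => (z' p.1.1.1.1).2.1) :=
      Poly.fst (Poly.snd hz4')
    have z2' : Poly (fun p : (((α × ℕ) × ℕ) × ℕ) × ℕ => (z' p.1.1.1.1).2.2) :=
      Poly.snd (Poly.snd hz4')
    refine Poly.and (poly_edg hM4 u4 v4) (Poly.and ?_ ?_)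
    · exact Poly.decide_eq (Poly.add (Poly.add z1 (Poly.mul d1' w1)) (Poly.mul d2' w2))
        (Poly.add (Poly.add z1' (Poly.mul d1 w1)) (Poly.mul d2 w2))
    · exact Poly.decide_eq (Poly.add (Poly.add z2 (Poly.mul d1' (Poly.mul w1 w1)))
        (Poly.mul d2' (Poly.mul w2 w2)))
        (Poly.add (Poly.add z2' (Poly.mul d1 (Poly.mul w1 w1))) (Poly.mul d2 (Poly.mul w2 w2)))

theorem poly_co {r : α → ℕ} (hr : Poly r) : Poly (fun a => co (r a)) := by
  unfold co; fun_prop

theorem poly_nd (hz : Poly z) : Poly (fun a => nd (z a)) := by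
  unfold nd; fun_prop

theorem poly_bl {r : α → ℕ} (hz : Poly z) (hz' : Poly z') (hr : Poly r) :
    Poly (fun a => bl (z a) (z' a) (r a)) := by
  unfold bl; fun_prop

theorem poly_dd {r : α → ℕ} (hr : Poly r) : Poly (fun a => dd (r a)) := by
  unfold dd; fun_prop

theorem poly_adjD {u v : α → Ds} (hu : Poly u) (hv : Poly v) :
    Poly (fun a => adjD (u a) (v a)) := by
  unfold adjD
  fun_prop

theorem poly_L0x (hk : UPoly k) (hq : UPoly q) (hK : UPoly K) (hG : UPoly G) (hM : Poly M) :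
    Poly (fun a => L0x m (k a) (q a) (K a) (G a) (M a)) := by
  unfold L0x
  have hN : Poly (fun a => nodeL (M a).length (k a) (q a) (K a)) :=
    poly_nodeL (UPoly.length hM) hk hq hK
  have a1 : Poly (fun p : α × Nd => p.1) := Poly.fst Poly.id
  have a2 : Poly (fun p : (α × Nd) × Nd => p.1.1) := Poly.fst (Poly.fst Poly.id)
  refine Poly.append ?_ (Poly.append ?_ ?_)
  · exact Poly.map (F := fun _ r => co r) hG.range (poly_co (Poly.snd Poly.id))
  · exact Poly.map (F := fun _ z => nd z) hN (poly_nd (Poly.snd Poly.id))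
  · refine Poly.flatMap (F := fun a z => (nodeL (M a).length (k a) (q a) (K a)).flatMap fun z' =>
      bif cmpB (M a).length (k a) ((m + 1) * k a) (M a) z z' then
        (List.range (szx m (k a) (K a) (G a) z z')).map (bl z z') else []) hN ?_
    refine Poly.flatMap (α := α × Nd) (F := fun p z' =>
      bif cmpB (M p.1).length (k p.1) ((m + 1) * k p.1) (M p.1) p.2 z' then
        (List.range (szx m (k p.1) (K p.1) (G p.1) p.2 z')).map (bl p.2 z') else [])
      (hN.comp a1) ?_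
    have z2 : Poly (fun p : (α × Nd) × Nd => p.1.2) := Poly.snd (Poly.fst Poly.id)
    have z3 : Poly (fun p : (α × Nd) × Nd => p.2) := Poly.snd Poly.id
    refine Poly.cond ?_ ?_ (Poly.const [])
    · exact poly_cmpB (UPoly.length (hM.comp a2)) (hk.comp a2)
        (UPoly.mul (UPoly.const (m + 1)) (hk.comp a2)) (hM.comp a2) z2 z3
    · refine Poly.map (α := (α × Nd) × Nd) (F := fun p r => bl p.1.2 p.2 r)
        (upoly_szx m (hk.comp a2) (hK.comp a2) (hG.comp a2) z2 z3).range ?_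
      exact poly_bl (Poly.snd (Poly.fst (Poly.fst Poly.id))) (Poly.snd (Poly.fst Poly.id))
        (Poly.snd Poly.id)

theorem poly_LLx (hk : UPoly k) (hq : UPoly q) (hK : UPoly K) (hG : UPoly G) (hM : Poly M) :
    Poly (fun a => LLx m (k a) (q a) (K a) (G a) (M a)) := by
  have h0 := poly_L0x m hk hq hK hG hM
  unfold LLx
  refine Poly.append h0 ?_
  refine Poly.map (F := fun _ r => dd r) (UPoly.range ?_) (poly_dd (Poly.snd Poly.id))
  unfold dx
  refine UPoly.subP (UPoly.length h0) (UPoly.toPoly ?_)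
  exact UPoly.add hK (UPoly.mul (UPoly.const 2) (upoly_TTx m hk hK hG))

theorem poly_matD {L : α → List Ds} (hL : Poly L) : Poly (fun a => matD (L a)) := by
  unfold matD
  have a1 : Poly (fun p : α × Ds => p.1) := Poly.fst Poly.id
  refine Poly.map (F := fun a u => (L a).map fun v => adjD u v) hL ?_
  refine Poly.map (α := α × Ds) (F := fun p v => adjD p.2 v) (hL.comp a1) ?_
  exact poly_adjD (Poly.snd (Poly.fst Poly.id)) (Poly.snd Poly.id)

end

/-- The reduction on padded instances. -/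
def redx (m : ℕ) (x : List (List Bool) × List Unit × List Unit × List Unit × List Unit) :
    List (List Bool) × ℕ :=
  (matD (LLx m x.2.1.length x.2.2.1.length x.2.2.2.1.length x.2.2.2.2.length x.1),
    x.2.2.2.1.length)

theorem poly_redx (m : ℕ) : Poly (redx m) := by
  unfold redx
  refine Poly.pair (poly_matD (poly_LLx m ?_ ?_ ?_ ?_ ?_)) ?_
  · exact UPoly.length (Poly.fst (Poly.snd Poly.id))
  · exact UPoly.length (Poly.fst (Poly.snd (Poly.snd Poly.id)))
  · exact UPoly.length (Poly.fst (Poly.snd (Poly.snd (Poly.snd Poly.id))))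
  · exact UPoly.length (Poly.snd (Poly.snd (Poly.snd (Poly.snd Poly.id))))
  · exact Poly.fst Poly.id
  · exact Poly.length (Poly.fst (Poly.snd (Poly.snd (Poly.snd Poly.id))))

/-! ### Correctness of the padded version -/

theorem pw_eq {m k i : ℕ} (hi : i ≤ KK m k * KK m k) : pw m k (KK m k) i = BB m k ^ i := by
  unfold pw BB
  rw [min_eq_left hi, pow_mul]
  congr 1
  unfold KK
  have h1 : 2 * ((m + 1) * (k * k)) + 3 = (m + 1) * k * k + (m + 1) * k * k + 3 := by ring
  rw [h1, pow_add, pow_add]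
  ring

theorem BB_pos (m k : ℕ) : 0 < BB m k := by
  have := KK_pos m k
  unfold BB
  positivity

theorem pw_le_GG {m k i : ℕ} (hi : i ≤ KK m k * KK m k) : 4 * KK m k * BB m k ^ i ≤ GG m k := by
  have h1 : BB m k ^ i ≤ BB m k ^ (KK m k * KK m k) := Nat.pow_le_pow_right (BB_pos m k) hi
  have h2 : 4 * KK m k * BB m k ^ i ≤ 4 * KK m k * BB m k ^ (KK m k * KK m k) :=
    Nat.mul_le_mul_left _ h1
  have h3 : GG m k = 2 * (4 * KK m k * BB m k ^ (KK m k * KK m k)) := by
    unfold GG WW; ring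
  omega

theorem flatMap_congr' {α β : Type} {l : List α} {f g : α → List β} (h : ∀ a ∈ l, f a = g a) :
    l.flatMap f = l.flatMap g := by
  induction l with
  | nil => rfl
  | cons a l ih =>
    rw [List.flatMap_cons, List.flatMap_cons, h a (by simp),
      ih fun b hb => h b (List.mem_cons_of_mem _ hb)]

theorem L0x_eq (m : ℕ) (x : List (List Bool) × ℕ) :
    L0x m x.2 (2 ^ ss m x.2) (KK m x.2) (GG m x.2) x.1 =
      L0 (KK m x.2) (WW m x.2) (BB m x.2) (GG m x.2)
        (nodeL x.1.length x.2 (2 ^ ss m x.2) (KK m x.2))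
        (cmpB x.1.length x.2 (ss m x.2) x.1) := by
  unfold L0x L0
  congr 2
  refine flatMap_congr' fun z hz => flatMap_congr' fun z' hz' => ?_
  have h1 := (mem_nodeL.1 hz).1
  have h2 := (mem_nodeL.1 hz').1
  have h3 : z.1 * KK m x.2 + z'.1 ≤ KK m x.2 * KK m x.2 := by
    have : (z.1 + 1) * KK m x.2 ≤ KK m x.2 * KK m x.2 := Nat.mul_le_mul_right _ h1
    have h4 : (z.1 + 1) * KK m x.2 = z.1 * KK m x.2 + KK m x.2 := by ring
    omega
  have h4 : szx m x.2 (KK m x.2) (GG m x.2) z z' = bsz (KK m x.2) (WW m x.2) (BB m x.2) z z' := by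
    unfold szx bsz
    rw [pw_eq h3, min_eq_left (pw_le_GG h3)]
    rfl
  rw [h4]
  rfl

theorem TTx_eq (m k : ℕ) : TTx m k (KK m k) (GG m k) = TT (KK m k) (WW m k) (BB m k) := by
  unfold TTx TT
  have h1 : ((List.range (KK m k * KK m k)).map fun i => min (pw m k (KK m k) i) (GG m k)) =
      (List.range (KK m k * KK m k)).map fun i => BB m k ^ i := by
    refine List.map_congr_left fun i hi => ?_
    rw [List.mem_range] at hi
    rw [pw_eq hi.le, min_eq_left]
    refine le_trans ?_ (pw_le_GG hi.le)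
    exact Nat.le_mul_of_pos_left _ (by have := KK_pos m k; omega)
  rw [h1, ← List.sum_toFinset _ List.nodup_range]
  congr 1
  refine Finset.sum_congr ?_ fun _ _ => rfl
  ext i
  simp

theorem LLx_eq (m : ℕ) (x : List (List Bool) × ℕ) :
    LLx m x.2 (2 ^ ss m x.2) (KK m x.2) (GG m x.2) x.1 = LLr m x := by
  unfold LLx LLr LL dx dsz
  rw [L0x_eq, TTx_eq]

theorem redx_eq (m : ℕ) (x : List (List Bool) × ℕ) :
    redx m (x.1, List.replicate x.2 (), List.replicate (2 ^ ss m x.2) (),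
      List.replicate (KK m x.2) (), List.replicate (GG m x.2) ()) = redB m x := by
  unfold redx redB
  simp only [List.length_replicate]
  rw [LLx_eq]

/-- The reduction takes fixed-parameter tractable time. -/
theorem fpt_redB (m : ℕ) : FptTime (fun x : List (List Bool) × ℕ => x.2) (redB m) := by
  have hκ : Poly (fun x : List (List Bool) × ℕ => x.2) := Poly.snd Poly.id
  have u0 : UF (fun k => k) := UF.id
  have u1 : UF (fun k => 2 ^ ss m k) :=
    UF.two_pow (UF.mul (UF.const (m + 1)) UF.id)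
  have u2 : UF (fun k => KK m k) :=
    UF.two_pow (UF.mul (UF.mul (UF.const (m + 1)) UF.id) UF.id)
  have u3 : UF (fun k => GG m k) := by
    have h1 : UF (fun k => 2 ^ (((2 * ((m + 1) * (k * k)) + 3)) * (KK m k * KK m k))) :=
      UF.two_pow (UF.mul (UF.add (UF.mul (UF.const 2) (UF.mul (UF.const (m + 1))
        (UF.mul UF.id UF.id))) (UF.const 3)) (UF.mul u2 u2))
    have h2 : UF (fun k => 2 * (4 * KK m k) *
        2 ^ (((2 * ((m + 1) * (k * k)) + 3)) * (KK m k * KK m k))) :=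
      UF.mul (UF.mul (UF.const 2) (UF.mul (UF.const 4) u2)) h1
    have h3 : (fun k => 2 * (4 * KK m k) *
        2 ^ (((2 * ((m + 1) * (k * k)) + 3)) * (KK m k * KK m k))) = fun k => GG m k := by
      funext k
      have h4 := pw_eq (m := m) (k := k) (le_refl (KK m k * KK m k))
      unfold pw at h4
      rw [min_self] at h4
      rw [h4]
      rfl
    exact h3 ▸ h2
  have h := FptTime.poly_comp (poly_redx m)
    ((FptTime.of_poly (κ := fun x : List (List Bool) × ℕ => x.2) (Poly.fst Poly.id)).pair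
      ((u0.pad hκ).pair ((u1.pad hκ).pair ((u2.pad hκ).pair (u3.pad hκ)))))
  have he : (fun x : List (List Bool) × ℕ => redx m (x.1, List.replicate x.2 (),
      List.replicate (2 ^ ss m x.2) (), List.replicate (KK m x.2) (),
      List.replicate (GG m x.2) ())) = redB m := funext fun x => redx_eq m x
  rw [← he]
  exact h

end Pool.Agent.NPC.H438
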