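import Pool.Agent.H438R3.VB.No
import Pool.Agent.H438R3.VB.Comb
import Pool.Agent.H438R3.VB.Defs
import Pool.Agent.H633R2.DkSMain

/-!
# The reduction and its correctness
-/

namespace Pool.Agent.H438R3.VB

open Finset Pool.Agent.H633R2

/-- The adjacency matrix of a list of descriptors. -/
def matD (L : List Ds) : List (List Bool) := L.map fun u => L.map fun v => adjD u v

theorem length_matD (L : List Ds) : (matD L).length = L.length := by simp [matD]

/-- The descriptor of a vertex. -/
def lab (L : List Ds) (i : Fin (matD L).length) : Ds := L.get (i.cast (length_matD L))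

theorem lab_inj {L : List Ds} (hL : L.Nodup) : Function.Injective (lab L) := by
  intro i j h
  have := (List.nodup_iff_injective_get.1 hL) h
  exact Fin.ext (by simpa [Fin.ext_iff] using this)

theorem lab_mem (L : List Ds) (i : Fin (matD L).length) : lab L i ∈ L := List.get_mem _ _

theorem exists_lab {L : List Ds} {u : Ds} (h : u ∈ L) : ∃ i, lab L i = u := by
  obtain ⟨i, hi⟩ := List.get_of_mem h
  exact ⟨i.cast (length_matD L).symm, hi⟩

theorem entry_matD (L : List Ds) (i j : Fin (matD L).length) :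
    entry (matD L) i j = adjD (lab L i) (lab L j) := by
  have hi : (i : ℕ) < L.length := (length_matD L) ▸ i.2
  have hj : (j : ℕ) < L.length := (length_matD L) ▸ j.2
  unfold entry matD lab
  simp [List.getD, hi, hj]

theorem adj_matD {L : List Ds} (i j : Fin (matD L).length) :
    (graphOf (matD L)).Adj i j ↔ i ≠ j ∧ (adjD (lab L i) (lab L j) = true ∨
      adjD (lab L j) (lab L i) = true) := by
  unfold graphOf
  simp only
  rw [entry_matD, entry_matD]

theorem part_of_bisector {L : List Ds} (hL : L.Nodup) {S : Finset (Fin (matD L).length)}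
    (h : IsBisector (graphOf (matD L)) S) :
    ∃ S' V₁ V₂ : Finset Ds, Part L.toFinset S' V₁ V₂ ∧ S'.card = S.card := by
  obtain ⟨V₁, V₂, h1, h2, h3, h4, h5, h6, h7⟩ := h
  have hinj := lab_inj hL
  refine ⟨S.image (lab L), V₁.image (lab L), V₂.image (lab L), ⟨?_, ?_, ?_, ?_, ?_, ?_, ?_⟩, ?_⟩
  · rwa [Finset.disjoint_image hinj]
  · rwa [Finset.disjoint_image hinj]
  · rwa [Finset.disjoint_image hinj]
  · rw [← Finset.image_union, ← Finset.image_union, h4]
    ext u
    rw [mem_image, List.mem_toFinset]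
    constructor
    · rintro ⟨i, -, rfl⟩
      exact lab_mem L i
    · intro h
      obtain ⟨i, hi⟩ := exists_lab h
      exact ⟨i, mem_univ _, hi⟩
  · rwa [Finset.card_image_of_injective _ hinj, Finset.card_image_of_injective _ hinj]
  · rwa [Finset.card_image_of_injective _ hinj, Finset.card_image_of_injective _ hinj]
  · intro u hu v hv
    obtain ⟨i, hi, rfl⟩ := mem_image.1 hu
    obtain ⟨j, hj, rfl⟩ := mem_image.1 hv
    have h8 := h7 i hi j hj
    rw [adj_matD] at h8
    have h9 : i ≠ j := by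
      rintro rfl
      exact Finset.disjoint_left.1 h3 hi hj
    have h10 : ¬ (adjD (lab L i) (lab L j) = true ∨ adjD (lab L j) (lab L i) = true) :=
      fun h => h8 ⟨h9, h⟩
    rw [not_or, Bool.not_eq_true, Bool.not_eq_true] at h10
    exact h10
  · exact Finset.card_image_of_injective _ hinj

theorem bisector_of_part {L : List Ds} (hL : L.Nodup) {S V₁ V₂ : Finset Ds}
    (h : Part L.toFinset S V₁ V₂) :
    ∃ S' : Finset (Fin (matD L).length), IsBisector (graphOf (matD L)) S' ∧
      S'.card = S.card := by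
  classical
  obtain ⟨h1, h2, h3, h4, h5, h6, h7⟩ := h
  have hinj := lab_inj hL
  have key : ∀ X : Finset Ds, X ⊆ L.toFinset →
      ((univ.filter fun i => lab L i ∈ X).card = X.card) := by
    intro X hX
    have : (univ.filter fun i => lab L i ∈ X).image (lab L) = X := by
      ext u
      rw [mem_image]
      constructor
      · rintro ⟨i, hi, rfl⟩
        exact (mem_filter.1 hi).2
      · intro hu
        obtain ⟨i, rfl⟩ := exists_lab (List.mem_toFinset.1 (hX hu))
        exact ⟨i, mem_filter.2 ⟨mem_univ _, hu⟩, rfl⟩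
    rw [← this, Finset.card_image_of_injective _ hinj, this]
  have s1 : S ⊆ L.toFinset := by
    rw [← h4]; exact fun u hu => mem_union_left _ (mem_union_left _ hu)
  have s2 : V₁ ⊆ L.toFinset := by
    rw [← h4]; exact fun u hu => mem_union_left _ (mem_union_right _ hu)
  have s3 : V₂ ⊆ L.toFinset := by
    rw [← h4]; exact fun u hu => mem_union_right _ hu
  refine ⟨univ.filter fun i => lab L i ∈ S, ⟨univ.filter fun i => lab L i ∈ V₁,
    univ.filter fun i => lab L i ∈ V₂, ?_, ?_, ?_, ?_, ?_, ?_, ?_⟩, key S s1⟩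
  · rw [Finset.disjoint_left]
    intro i hi hi'
    exact Finset.disjoint_left.1 h1 (mem_filter.1 hi).2 (mem_filter.1 hi').2
  · rw [Finset.disjoint_left]
    intro i hi hi'
    exact Finset.disjoint_left.1 h2 (mem_filter.1 hi).2 (mem_filter.1 hi').2
  · rw [Finset.disjoint_left]
    intro i hi hi'
    exact Finset.disjoint_left.1 h3 (mem_filter.1 hi).2 (mem_filter.1 hi').2
  · ext i
    simp only [mem_union, mem_filter, mem_univ, true_and, iff_true]
    have : lab L i ∈ L.toFinset := List.mem_toFinset.2 (lab_mem L i)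
    rw [← h4, mem_union, mem_union] at this
    exact this
  · rwa [key V₁ s2, key V₂ s3]
  · rwa [key V₁ s2, key V₂ s3]
  · intro i hi j hj
    rw [adj_matD]
    rintro ⟨-, h | h⟩
    · rw [(h7 _ (mem_filter.1 hi).2 _ (mem_filter.1 hj).2).1] at h
      exact Bool.noConfusion h
    · rw [(h7 _ (mem_filter.1 hi).2 _ (mem_filter.1 hj).2).2] at h
      exact Bool.noConfusion h

/-! ### The nodes and their compatibility -/

/-- Digit number `l < k` of `a` in base `2 ^ s`. -/
def dg (s k a l : ℕ) : ℕ := a / 2 ^ (s * min l k) % 2 ^ s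

/-- Compatibility of two nodes. -/
def cmpB (n k s : ℕ) (M : List (List Bool)) (z z' : Nd) : Bool :=
  (List.range k).all fun i => (List.range k).all fun j =>
    !(decide (i < j)) || (!((List.range k).all fun l =>
      (decide (l = i) || decide (l = j)) || decide (dg s k z.1 l = dg s k z'.1 l)) ||
    (List.range n).any fun u => (List.range n).any fun v =>
      edg M u v && (decide (z.2.1 + dg s k z'.1 i * vid n i u + dg s k z'.1 j * vid n j v =
        z'.2.1 + dg s k z.1 i * vid n i u + dg s k z.1 j * vid n j v) &&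
      decide (z.2.2 + dg s k z'.1 i * (vid n i u * vid n i u) +
          dg s k z'.1 j * (vid n j v * vid n j v) =
        z'.2.2 + dg s k z.1 i * (vid n i u * vid n i u) +
          dg s k z.1 j * (vid n j v * vid n j v))))

theorem cmpB_iff {n k s : ℕ} {M : List (List Bool)} {z z' : Nd} :
    cmpB n k s M z z' = true ↔
      Cmp n k (fun u v => edg M u v = true) (dg s k z.1) (dg s k z'.1) z.2 z'.2 := by
  unfold cmpB Cmp
  simp only [List.all_eq_true, List.mem_range, Bool.or_eq_true, Bool.not_eq_true',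
    decide_eq_false_iff_not, List.any_eq_true, Bool.and_eq_true, decide_eq_true_eq, pow_two,
    Bool.eq_false_iff, ne_eq]
  constructor
  · intro h i j hij hj hl
    rcases h i (by omega) j hj with h1 | h1 | h1
    · exact absurd hij h1
    · exfalso
      apply h1
      intro l hlk
      by_cases e1 : l = i
      · exact Or.inl (Or.inl e1)
      · by_cases e2 : l = j
        · exact Or.inl (Or.inr e2)
        · exact Or.inr (hl l hlk e1 e2)
    · obtain ⟨u, hu, v, hv, h2, h3, h4⟩ := h1
      exact ⟨u, hu, v, hv, h2, h3, h4⟩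
  · intro h i hi j hj
    by_cases hij : i < j
    · right
      by_cases hl : ∀ l < k, (l = i ∨ l = j) ∨ dg s k z.1 l = dg s k z'.1 l
      · right
        obtain ⟨u, hu, v, hv, h2, h3, h4⟩ := h i j hij hj (by
          intro l hlk e1 e2
          rcases hl l hlk with (h | h) | h
          · exact absurd h e1
          · exact absurd h e2
          · exact h)
        exact ⟨u, hu, v, hv, h2, h3, h4⟩
      · left
        exact hl
    · exact Or.inl hij

/-- Upper bounds for the values. -/
def R1 (n k q : ℕ) : ℕ := k * (q * (k * n)) + 1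
def R2 (n k q : ℕ) : ℕ := k * (q * ((k * n) * (k * n))) + 1

/-- The list of the nodes. -/
def nodeL (n k q K : ℕ) : List Nd :=
  (List.range K).flatMap fun a => (List.range (R1 n k q)).flatMap fun x =>
    (List.range (R2 n k q)).map fun y => (a, x, y)

theorem mem_nodeL {n k q K : ℕ} {z : Nd} :
    z ∈ nodeL n k q K ↔ z.1 < K ∧ z.2.1 < R1 n k q ∧ z.2.2 < R2 n k q := by
  unfold nodeL
  simp only [List.mem_flatMap, List.mem_range, List.mem_map]
  constructor
  · rintro ⟨a, ha, x, hx, y, hy, rfl⟩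
    exact ⟨ha, hx, hy⟩
  · rintro ⟨h1, h2, h3⟩
    exact ⟨z.1, h1, z.2.1, h2, z.2.2, h3, rfl⟩

theorem nodup_nodeL (n k q K : ℕ) : (nodeL n k q K).Nodup := by
  unfold nodeL
  rw [List.nodup_flatMap]
  refine ⟨fun a _ => ?_, ?_⟩
  · rw [List.nodup_flatMap]
    refine ⟨fun x _ => ?_, ?_⟩
    · exact List.Nodup.map (fun y y' h => by simpa using h) List.nodup_range
    · refine List.nodup_range.imp ?_
      intro x x' hx
      simp only [Function.onFun]
      rw [List.disjoint_left]
      intro z hz hz'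
      rw [List.mem_map] at hz hz'
      obtain ⟨y, -, rfl⟩ := hz
      obtain ⟨y', -, h⟩ := hz'
      simp only [Prod.mk.injEq] at h
      exact hx h.2.1.symm
  · refine List.nodup_range.imp ?_
    intro a a' ha
    simp only [Function.onFun]
    rw [List.disjoint_left]
    intro z hz hz'
    rw [List.mem_flatMap] at hz hz'
    obtain ⟨x, -, hz⟩ := hz
    obtain ⟨x', -, hz'⟩ := hz'
    rw [List.mem_map] at hz hz'
    obtain ⟨y, -, rfl⟩ := hz
    obtain ⟨y', -, h⟩ := hz'
    simp only [Prod.mk.injEq] at h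
    exact ha h.1.symm

theorem dg_lt {s k a l : ℕ} : dg s k a l < 2 ^ s := Nat.mod_lt _ (Nat.pow_pos (by norm_num))

theorem Fv_bounds {n k s : ℕ} {v : ℕ → ℕ} (hv : ∀ i < k, v i < n) (a : ℕ) :
    (Fv n k v (dg s k a)).1 < R1 n k (2 ^ s) ∧ (Fv n k v (dg s k a)).2 < R2 n k (2 ^ s) := by
  have h1 : ∀ l ∈ range k, dg s k a l ≤ 2 ^ s ∧ vid n l (v l) ≤ k * n := by
    intro l hl
    rw [mem_range] at hl
    refine ⟨dg_lt.le, ?_⟩
    have h2 : (l + 1) * n ≤ k * n := Nat.mul_le_mul_right _ hl
    have h3 := hv l hl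
    unfold vid
    have h4 : (l + 1) * n = l * n + n := by ring
    omega
  unfold Fv R1 R2
  constructor
  · have : ∑ l ∈ range k, dg s k a l * vid n l (v l) ≤ ∑ l ∈ range k, 2 ^ s * (k * n) :=
      Finset.sum_le_sum fun l hl => Nat.mul_le_mul (h1 l hl).1 (h1 l hl).2
    rw [Finset.sum_const, card_range, smul_eq_mul] at this
    exact Nat.lt_succ_of_le this
  · have : ∑ l ∈ range k, dg s k a l * vid n l (v l) ^ 2 ≤
        ∑ l ∈ range k, 2 ^ s * ((k * n) * (k * n)) :=
      Finset.sum_le_sum fun l hl => by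
        rw [pow_two]
        exact Nat.mul_le_mul (h1 l hl).1 (Nat.mul_le_mul (h1 l hl).2 (h1 l hl).2)
    rw [Finset.sum_const, card_range, smul_eq_mul] at this
    exact Nat.lt_succ_of_le this

theorem edg_comm (M : List (List Bool)) (i j : ℕ) : edg M i j = edg M j i := by
  unfold edg
  rw [Bool.or_comm, show decide (i = j) = decide (j = i) from by simp [eq_comm]]

/-- From nodes to a clique. -/
theorem clique_of_nodes {n k q m s : ℕ} {M : List (List Bool)} (hk : 2 ≤ k) (hn : n = M.length)
    (hs : q = 2 ^ s) (hq : k * (m + 1) < q) (NS : Finset Nd)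
    (hNS : q ^ k + (m + 1) * NS.card ≤ (m + 1) * (2 * q ^ k))
    (h : ∀ a < q ^ k, ∀ b < q ^ k, ∃ z ∈ NS, ∃ z' ∈ NS, z.1 = a ∧ z'.1 = b ∧
      cmpB n k s M z z' = true) : HasClique (M, k) := by
  classical
  set K := q ^ k with hK
  let A' : Finset ℕ := (range K).filter fun a => (NS.filter fun z => z.1 = a).card = 1
  -- many groups with one node
  have hA' : 2 * K ≤ A'.card + NS.card := by
    have h1 : ∀ a ∈ range K, 2 ≤ (NS.filter fun z => z.1 = a).card +
        (if (NS.filter fun z => z.1 = a).card = 1 then 1 else 0) := by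
      intro a ha
      rw [mem_range] at ha
      obtain ⟨z, hz, -, -, hza, -⟩ := h a ha a ha
      have h2 : 0 < (NS.filter fun z => z.1 = a).card :=
        Finset.card_pos.2 ⟨z, mem_filter.2 ⟨hz, hza⟩⟩
      split_ifs with h3 <;> omega
    have h2 := Finset.sum_le_sum h1
    rw [Finset.sum_const, card_range, smul_eq_mul, Finset.sum_add_distrib,
      ← Finset.card_filter] at h2
    have h3 : ∑ a ∈ range K, (NS.filter fun z => z.1 = a).card ≤ NS.card := by
      rw [← Finset.card_biUnion]
      · exact Finset.card_le_card (Finset.biUnion_subset.2 fun a _ => Finset.filter_subset _ _)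
      · intro a _ b _ hab
        simp only [Function.onFun]
        rw [Finset.disjoint_left]
        intro z hz hz'
        exact hab ((mem_filter.1 hz).2.symm.trans (mem_filter.1 hz').2)
    have h4 : ((range K).filter fun a => (NS.filter fun z => z.1 = a).card = 1).card = A'.card :=
      rfl
    omega
  have hq0 : 0 < q := by omega
  let A : Finset (Fin k → Fin q) := univ.filter fun p => (finFunctionFinEquiv p : ℕ) ∈ A'
  have hAc : A.card = A'.card := by
    refine Finset.card_bij (fun p _ => (finFunctionFinEquiv p : ℕ)) ?_ ?_ ?_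
    · intro p hp
      exact (mem_filter.1 hp).2
    · intro p _ p' _ h
      exact finFunctionFinEquiv.injective (Fin.ext h)
    · intro a ha
      have h1 : a < q ^ k := mem_range.1 (mem_filter.1 ha).1
      refine ⟨finFunctionFinEquiv.symm ⟨a, h1⟩, ?_, ?_⟩
      · rw [mem_filter]
        refine ⟨mem_univ _, ?_⟩
        rw [Equiv.apply_symm_apply]
        exact ha
      · rw [Equiv.apply_symm_apply]
  -- the value of a group
  have hval : ∀ a ∈ A', ∃ x : ℕ × ℕ, ∀ z ∈ NS, z.1 = a → z = (a, x) := by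
    intro a ha
    obtain ⟨z, hz⟩ := Finset.card_eq_one.1 (mem_filter.1 ha).2
    refine ⟨z.2, fun y hy hya => ?_⟩
    have h1 : y ∈ NS.filter fun z => z.1 = a := mem_filter.2 ⟨hy, hya⟩
    rw [hz, mem_singleton] at h1
    rw [h1] at hya ⊢
    rw [← hya]
  let f : (Fin k → Fin q) → ℕ × ℕ := fun p =>
    if h : (finFunctionFinEquiv p : ℕ) ∈ A' then (hval _ h).choose else (0, 0)
  have hf : ∀ p ∈ A, ∀ z ∈ NS, z.1 = (finFunctionFinEquiv p : ℕ) →
      z = ((finFunctionFinEquiv p : ℕ), f p) := by
    intro p hp z hz hzp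
    have h1 := (mem_filter.1 hp).2
    have h2 := (hval _ h1).choose_spec z hz hzp
    have h3 : f p = (hval _ h1).choose := dif_pos h1
    rw [h3]
    exact h2
  have hdg : ∀ (p : Fin k → Fin q) (l : ℕ), l < k →
      dg s k (finFunctionFinEquiv p : ℕ) l = ex p l := by
    intro p l hl
    rw [ex_of_lt p hl]
    have h1 := finFunctionFinEquiv_symm_apply_val (finFunctionFinEquiv p) ⟨l, hl⟩
    rw [Equiv.symm_apply_apply] at h1
    unfold dg
    rw [min_eq_left hl.le, pow_mul, ← hs]
    exact h1.symm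
  have hcard : k * q ^ (k - 1) < A.card := by
    rw [hAc]
    by_contra hcon
    push Not at hcon
    have h1 : (m + 1) * (2 * K) ≤ (m + 1) * (A'.card + NS.card) := Nat.mul_le_mul_left _ hA'
    rw [Nat.mul_add] at h1
    have h2 : K ≤ (m + 1) * A'.card := by omega
    have h3 : (m + 1) * A'.card ≤ (m + 1) * (k * q ^ (k - 1)) := Nat.mul_le_mul_left _ hcon
    have h4 : K = q * q ^ (k - 1) := by
      rw [hK]
      obtain ⟨j, rfl⟩ : ∃ j, k = j + 1 := ⟨k - 1, by omega⟩
      rw [Nat.add_sub_cancel, pow_succ]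
      ring
    have h5 : (m + 1) * (k * q ^ (k - 1)) = (k * (m + 1)) * q ^ (k - 1) := by ring
    have h6 : (k * (m + 1)) * q ^ (k - 1) < q * q ^ (k - 1) :=
      Nat.mul_lt_mul_of_pos_right hq (Nat.pow_pos hq0)
    omega
  obtain ⟨v, hv1, hv2⟩ := clique_of_card (N := n) (adj := fun u v => edg M u v = true) hk A f (by
    intro p hp p' hp'
    obtain ⟨z, hz, z', hz', h1, h2, h3⟩ := h (finFunctionFinEquiv p) (finFunctionFinEquiv p).2
      (finFunctionFinEquiv p') (finFunctionFinEquiv p').2
    have e1 := hf p hp z hz h1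
    have e2 := hf p' hp' z' hz' h2
    rw [cmpB_iff] at h3
    rw [e1, e2] at h3
    intro i j hij hj hl
    obtain ⟨u, hu, v, hv, g1, g2, g3⟩ := h3 i j hij hj (by
      intro l hlk e1 e2
      simp only
      rw [hdg p l hlk, hdg p' l hlk]
      exact hl l hlk e1 e2)
    simp only at g2 g3
    rw [hdg p i (by omega), hdg p' i (by omega), hdg p j hj, hdg p' j hj] at g2 g3
    exact ⟨u, hu, v, hv, g1, g2, g3⟩) hcard
  rw [hasClique_iff]
  refine ⟨fun i => if h : i < k then v ⟨i, h⟩ else 0, ?_, ?_⟩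
  · intro i hi
    simp only [dif_pos hi]
    rw [← hn]
    exact hv1 _
  · intro i hi j hj hij
    simp only [dif_pos hi, dif_pos hj]
    rcases lt_or_gt_of_ne hij with h1 | h1
    · exact hv2 ⟨i, hi⟩ ⟨j, hj⟩ h1
    · rw [edg_comm]
      exact hv2 ⟨j, hj⟩ ⟨i, hi⟩ h1

/-! ### The instance -/

/-- The logarithm of the side length of the grid. -/
def ss (m k : ℕ) : ℕ := (m + 1) * k
/-- The number of groups, which is the new parameter. -/
def KK (m k : ℕ) : ℕ := 2 ^ ((m + 1) * k * k)
def WW (m k : ℕ) : ℕ := 4 * KK m k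
def BB (m k : ℕ) : ℕ := 8 * KK m k * KK m k
def GG (m k : ℕ) : ℕ := 2 * WW m k * BB m k ^ (KK m k * KK m k)

/-- The vertices of the instance. -/
def LLr (m : ℕ) (x : List (List Bool) × ℕ) : List Ds :=
  LL (KK m x.2) (WW m x.2) (BB m x.2) (GG m x.2)
    (nodeL x.1.length x.2 (2 ^ ss m x.2) (KK m x.2)) (cmpB x.1.length x.2 (ss m x.2) x.1)

/-- **The reduction.** -/
def redB (m : ℕ) (x : List (List Bool) × ℕ) : List (List Bool) × ℕ :=
  (matD (LLr m x), KK m x.2)

theorem qq_pow (m k : ℕ) : (2 ^ ss m k) ^ k = KK m k := by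
  unfold ss KK
  rw [← pow_mul]

theorem KK_pos (m k : ℕ) : 1 ≤ KK m k := Nat.one_le_two_pow

theorem yes_dir {m : ℕ} {M : List (List Bool)} {k : ℕ} (h : HasClique (M, k)) :
    ∃ S : Finset (Fin (redB m (M, k)).1.length), IsBisector (graphOf (redB m (M, k)).1) S ∧
      S.card ≤ (redB m (M, k)).2 := by
  rw [hasClique_iff] at h
  obtain ⟨v, hv, hadj⟩ := h
  have hK := KK_pos m k
  have hB3 : 3 ≤ BB m k := by unfold BB; nlinarith
  have hΓ : KK m k + 2 * TT (KK m k) (WW m k) (BB m k) ≤ GG m k := by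
    have h1 := two_TT_le (K := KK m k) (W := WW m k) hB3
    have h2 : 0 < BB m k ^ (KK m k * KK m k) := Nat.pow_pos (by omega)
    have h3 : WW m k ≤ WW m k * BB m k ^ (KK m k * KK m k) := Nat.le_mul_of_pos_right _ h2
    have h4 : GG m k = WW m k * BB m k ^ (KK m k * KK m k) +
      WW m k * BB m k ^ (KK m k * KK m k) := by unfold GG; ring
    have h5 : WW m k = 4 * KK m k := rfl
    omega
  obtain ⟨S, V₁, V₂, hP, hS⟩ := exists_part (C := cmpB M.length k (ss m k) M)
    (nodup_nodeL M.length k (2 ^ ss m k) (KK m k)) hΓ (fun a => Fv M.length k v (dg (ss m k) k a))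
    (fun a ha => mem_nodeL.2 ⟨ha, (Fv_bounds hv a).1, (Fv_bounds hv a).2⟩)
    (fun a _ b _ => by
      rw [cmpB_iff]
      exact cmp_Fv hv (fun i hi j hj hij => hadj i hi j hj hij) _ _)
  obtain ⟨S', h1, h2⟩ := bisector_of_part (nodup_LL (nodup_nodeL _ _ _ _)) hP
  exact ⟨S', h1, (h2.trans hS).le⟩

theorem no_dir {m : ℕ} {M : List (List Bool)} {k : ℕ} (hk : 2 ≤ k)
    (h : ∃ S : Finset (Fin (redB m (M, k)).1.length), IsBisector (graphOf (redB m (M, k)).1) S ∧
      (redB m (M, k)).2 + (m + 1) * S.card ≤ (m + 1) * (2 * (redB m (M, k)).2)) :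
    HasClique (M, k) := by
  obtain ⟨S, hS, hc⟩ := h
  have hK := KK_pos m k
  obtain ⟨S', V₁, V₂, hP, hS'⟩ := part_of_bisector (nodup_LL (nodup_nodeL _ _ _ _)) hS
  have hc : KK m k + (m + 1) * S'.card ≤ (m + 1) * (2 * KK m k) := by
    rw [hS']
    exact hc
  have hle : S'.card ≤ 2 * KK m k := by
    have : (m + 1) * S'.card ≤ (m + 1) * (2 * KK m k) := by omega
    exact Nat.le_of_mul_le_mul_left this (by omega)
  have h1 := no_part (nodup_nodeL M.length k (2 ^ ss m k) (KK m k))
    (fun z hz => (mem_nodeL.1 hz).1) hK (by unfold BB; nlinarith) (le_refl (WW m k))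
    (le_refl (GG m k)) hP hle
  refine clique_of_nodes (m := m) (q := 2 ^ ss m k) hk rfl rfl ?_ (nodesOf S') ?_ ?_
  · have h2 : (m + 1) * k < 2 ^ ((m + 1) * k) := Nat.lt_two_pow_self
    rw [Nat.mul_comm k]
    exact h2
  · rw [qq_pow]
    have h2 := card_nodesOf_le S'
    have h3 : (m + 1) * (nodesOf S').card ≤ (m + 1) * S'.card := Nat.mul_le_mul_left _ h2
    omega
  · rw [qq_pow]
    intro a ha b hb
    obtain ⟨z, hz, z', hz', g1, g2, -, -, g3⟩ := h1 a ha b hb
    exact ⟨z, hz, z', hz', g1, g2, g3⟩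

end Pool.Agent.H438R3.VB
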