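import Pool.Agent.H438R3.VB.Gr

/-!
# From a consistent choice of nodes to a bisector
-/

namespace Pool.Agent.H438R3.VB

open Finset

theorem sum_mul_add (K : ℕ) (g : ℕ → ℕ) (m : ℕ) :
    ∑ a ∈ range m, ∑ b ∈ range K, g (a * K + b) = ∑ i ∈ range (m * K), g i := by
  induction m with
  | zero => simp
  | succ m ih =>
    rw [Finset.sum_range_succ, ih, Nat.succ_mul, Finset.sum_range_add]

/-- A partition of a set of descriptors into a set `S` and two nonadjacent sets of almost the
same size. -/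
def Part (U S V₁ V₂ : Finset Ds) : Prop :=
  Disjoint S V₁ ∧ Disjoint S V₂ ∧ Disjoint V₁ V₂ ∧ S ∪ V₁ ∪ V₂ = U ∧
    V₁.card ≤ V₂.card + 1 ∧ V₂.card ≤ V₁.card + 1 ∧
    ∀ u ∈ V₁, ∀ v ∈ V₂, adjD u v = false ∧ adjD v u = false

theorem Part.swap {U S V₁ V₂ : Finset Ds} (h : Part U S V₁ V₂) : Part U S V₂ V₁ := by
  obtain ⟨h1, h2, h3, h4, h5, h6, h7⟩ := h
  refine ⟨h2, h1, h3.symm, ?_, h6, h5, fun u hu v hv => (h7 v hv u hu).symm⟩
  rw [← h4, Finset.union_assoc, Finset.union_assoc, Finset.union_comm V₂ V₁]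

theorem Part.card {U S V₁ V₂ : Finset Ds} (h : Part U S V₁ V₂) :
    S.card + V₁.card + V₂.card = U.card := by
  obtain ⟨h1, h2, h3, h4, -⟩ := h
  rw [← h4, Finset.card_union_of_disjoint, Finset.card_union_of_disjoint h1]
  rw [Finset.disjoint_union_left]
  exact ⟨h2, h3⟩

variable {K W B Γ : ℕ} {zl : List Nd} {C : Nd → Nd → Bool}

theorem two_TT_le (hB : 3 ≤ B) : 2 * TT K W B ≤ W * B ^ (K * K) := by
  unfold TT
  have h : ∀ m, 2 * ∑ i ∈ range m, B ^ i ≤ B ^ m := by
    intro m
    induction m with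
    | zero => simp
    | succ m ih =>
      rw [Finset.sum_range_succ, pow_succ]
      have : B ^ m * 3 ≤ B ^ m * B := Nat.mul_le_mul_left _ hB
      omega
  calc 2 * (W * ∑ i ∈ range (K * K), B ^ i) = W * (2 * ∑ i ∈ range (K * K), B ^ i) := by ring
    _ ≤ W * B ^ (K * K) := Nat.mul_le_mul_left _ (h _)

/-- The number of vertices. -/
theorem length_LL (h : K + 2 * TT K W B ≤ Γ) :
    (LL K W B Γ zl C).length = 2 * dsz K W B Γ zl C + K + 2 * TT K W B := by
  have h1 : Γ ≤ (L0 K W B Γ zl C).length := by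
    unfold L0
    simp
  unfold LL
  rw [List.length_append, List.length_map, List.length_range]
  unfold dsz
  omega

/-- The vertices of the blobs chosen. -/
def chosen (K W B : ℕ) (F : ℕ → ℕ × ℕ) : Finset Ds :=
  (range K ×ˢ range K).biUnion fun p =>
    (range (W * B ^ (p.1 * K + p.2))).image fun r => bl (p.1, F p.1) (p.2, F p.2) r

theorem card_chosen (F : ℕ → ℕ × ℕ) : (chosen K W B F).card = TT K W B := by
  unfold chosen
  rw [Finset.card_biUnion]
  · rw [Finset.sum_product]
    have h1 : ∀ a ∈ range K, ∀ b ∈ range K, ((range (W * B ^ ((a, b).1 * K + (a, b).2))).image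
        fun r => bl ((a, b).1, F (a, b).1) ((a, b).2, F (a, b).2) r).card =
        W * B ^ (a * K + b) := by
      intro a _ b _
      rw [Finset.card_image_of_injective _ (bl_inj _ _), card_range]
    rw [Finset.sum_congr rfl fun a ha => Finset.sum_congr rfl fun b hb => h1 a ha b hb]
    rw [sum_mul_add K (fun i => W * B ^ i) K]
    unfold TT
    rw [Finset.mul_sum]
  · intro p _ p' _ hne
    simp only [Function.onFun]
    rw [Finset.disjoint_left]
    intro u hu hu'
    rw [mem_image] at hu hu'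
    obtain ⟨r, -, rfl⟩ := hu
    obtain ⟨r', -, h⟩ := hu'
    simp only [bl, Prod.mk.injEq] at h
    exact hne (Prod.ext h.2.1.1.symm h.2.2.1.1.symm)

theorem mem_chosen {F : ℕ → ℕ × ℕ} {u : Ds} : u ∈ chosen K W B F ↔ ∃ a < K, ∃ b < K,
    ∃ r < W * B ^ (a * K + b), u = bl (a, F a) (b, F b) r := by
  unfold chosen
  simp only [mem_biUnion, mem_product, mem_range, mem_image, Prod.exists]
  constructor
  · rintro ⟨a, b, ⟨ha, hb⟩, r, hr, rfl⟩
    exact ⟨a, ha, b, hb, r, hr, rfl⟩
  · rintro ⟨a, ha, b, hb, r, hr, rfl⟩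
    exact ⟨a, b, ⟨ha, hb⟩, r, hr, rfl⟩

/-- **The easy direction.** -/
theorem exists_part (hz : zl.Nodup) (hΓ : K + 2 * TT K W B ≤ Γ) (F : ℕ → ℕ × ℕ)
    (hF : ∀ a < K, (a, F a) ∈ zl) (hC : ∀ a < K, ∀ b < K, C (a, F a) (b, F b) = true) :
    ∃ S V₁ V₂ : Finset Ds, Part (LL K W B Γ zl C).toFinset S V₁ V₂ ∧ S.card = K := by
  set U := (LL K W B Γ zl C).toFinset with hU
  have hUc : U.card = 2 * dsz K W B Γ zl C + K + 2 * TT K W B := by
    rw [hU, List.toFinset_card_of_nodup (nodup_LL hz), length_LL hΓ]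
  let S : Finset Ds := (range K).image fun a => nd (a, F a)
  let V₂ : Finset Ds := (range (dsz K W B Γ zl C)).image dd ∪ chosen K W B F
  have hSc : S.card = K := by
    rw [Finset.card_image_of_injective, card_range]
    intro a b h
    have := nd_inj h
    exact congrArg Prod.fst this
  have hdisj : Disjoint ((range (dsz K W B Γ zl C)).image dd) (chosen K W B F) := by
    rw [Finset.disjoint_left]
    intro u hu hu'
    rw [mem_image] at hu
    obtain ⟨r, -, rfl⟩ := hu
    obtain ⟨a, -, b, -, r', -, h⟩ := mem_chosen.1 hu'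
    simp [dd, bl] at h
  have hV2c : V₂.card = dsz K W B Γ zl C + TT K W B := by
    rw [Finset.card_union_of_disjoint hdisj, Finset.card_image_of_injective _ dd_inj, card_range,
      card_chosen]
  have hSU : S ⊆ U := by
    intro u hu
    obtain ⟨a, ha, rfl⟩ := mem_image.1 hu
    rw [hU, List.mem_toFinset, mem_LL]
    exact Or.inr (Or.inl ⟨_, hF a (mem_range.1 ha), rfl⟩)
  have hV2U : V₂ ⊆ U := by
    intro u hu
    rw [hU, List.mem_toFinset, mem_LL]
    rcases mem_union.1 hu with hu | hu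
    · obtain ⟨r, hr, rfl⟩ := mem_image.1 hu
      exact Or.inr (Or.inr (Or.inr ⟨r, mem_range.1 hr, rfl⟩))
    · obtain ⟨a, ha, b, hb, r, hr, rfl⟩ := mem_chosen.1 hu
      exact Or.inr (Or.inr (Or.inl ⟨_, hF a ha, _, hF b hb, hC a ha b hb, r, hr, rfl⟩))
  have hSV2 : Disjoint S V₂ := by
    rw [Finset.disjoint_left]
    intro u hu hu'
    obtain ⟨a, ha, rfl⟩ := mem_image.1 hu
    rcases mem_union.1 hu' with hu' | hu'
    · obtain ⟨r, -, h⟩ := mem_image.1 hu'
      simp [dd, nd] at h
    · obtain ⟨a, -, b, -, r', -, h⟩ := mem_chosen.1 hu'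
      simp [nd, bl] at h
  refine ⟨S, U \ (S ∪ V₂), V₂, ⟨?_, hSV2, ?_, ?_, ?_, ?_, ?_⟩, hSc⟩
  · rw [Finset.disjoint_left]
    intro u hu hu'
    rw [mem_sdiff, mem_union] at hu'
    exact hu'.2 (Or.inl hu)
  · rw [Finset.disjoint_left]
    intro u hu hu'
    rw [mem_sdiff, mem_union] at hu
    exact hu.2 (Or.inr hu')
  · ext u
    simp only [mem_union, mem_sdiff]
    constructor
    · rintro ((h | h) | h)
      · exact hSU h
      · exact h.1
      · exact hV2U h
    · intro h
      by_cases h1 : u ∈ S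
      · exact Or.inl (Or.inl h1)
      · by_cases h2 : u ∈ V₂
        · exact Or.inr h2
        · exact Or.inl (Or.inr ⟨h, by tauto⟩)
  · rw [Finset.card_sdiff_of_subset (union_subset hSU hV2U), Finset.card_union_of_disjoint hSV2]
    omega
  · rw [Finset.card_sdiff_of_subset (union_subset hSU hV2U), Finset.card_union_of_disjoint hSV2]
    omega
  · intro u hu v hv
    rw [mem_sdiff, mem_union, not_or] at hu
    obtain ⟨hu, huS, huV⟩ := hu
    have huD : ∀ r < dsz K W B Γ zl C, u ≠ dd r := by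
      rintro r hr rfl
      exact huV (mem_union_left _ (mem_image_of_mem _ (mem_range.2 hr)))
    rw [hU, List.mem_toFinset, mem_LL] at hu
    rcases mem_union.1 hv with hv | hv
    · obtain ⟨r, hr, rfl⟩ := mem_image.1 hv
      rcases hu with ⟨r', -, rfl⟩ | ⟨z, -, rfl⟩ | ⟨z, -, z', -, -, r', -, rfl⟩ | ⟨r', hr', rfl⟩
      · simp [adjD, co, dd]
      · simp [adjD, nd, dd]
      · simp [adjD, bl, dd]
      · exact absurd rfl (huD r' hr')
    · obtain ⟨a, ha, b, hb, r, hr, rfl⟩ := mem_chosen.1 hv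
      rcases hu with ⟨r', -, rfl⟩ | ⟨z, -, rfl⟩ | ⟨z, -, z', -, -, r', hr', rfl⟩ | ⟨r', hr', rfl⟩
      · simp [adjD, co, bl]
      · have h1 : z ≠ (a, F a) := by
          rintro rfl
          exact huS (mem_image_of_mem (fun a => nd (a, F a)) (mem_range.2 ha))
        have h2 : z ≠ (b, F b) := by
          rintro rfl
          exact huS (mem_image_of_mem (fun a => nd (a, F a)) (mem_range.2 hb))
        simp [adjD, nd, bl, h1, h2]
      · have h1 : ¬ (z = (a, F a) ∧ z' = (b, F b)) := by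
          rintro ⟨rfl, rfl⟩
          exact huV (mem_union_right _ (mem_chosen.2 ⟨a, ha, b, hb, r', hr', rfl⟩))
        have h2 : ¬ ((a, F a) = z ∧ (b, F b) = z') := fun h => h1 ⟨h.1.symm, h.2.symm⟩
        refine ⟨?_, ?_⟩
        · rw [Bool.eq_false_iff]
          intro h
          exact h1 (by simpa [adjD, bl] using h)
        · rw [Bool.eq_false_iff]
          intro h
          exact h2 (by simpa [adjD, bl] using h)
      · exact absurd rfl (huD r' hr')

end Pool.Agent.H438R3.VB
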